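import Pool.Agent.Lib_helper68.LSPF.HP

/-! LSP, part F: the Cauchy-Schwarz step. -/

namespace Pool.Agent.LSP

open Pool.Agent.LEV Pool.Agent.LVB Pool.Agent.KSL
open Pool.Agent.FG61 (mu phi cc ff AA Lam)
open Complex MeasureTheory Filter Topology UpperHalfPlane ModularGroup ProbabilityTheory
open scoped MatrixGroups Modular ENNReal ModularForm ComplexConjugate ContDiff

theorem cr_core {ι : Type} [Fintype ι] (o F S : ι → ℝ) (ho : ∀ i, 0 ≤ o i)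
    {q x e B ε b κ cn : ℝ} (hq1 : 1 / 2 ≤ q) (hq2 : q ≤ 1) (hx0 : 0 ≤ x)
    (hxB : x ≤ B) (hB : 1 ≤ B) (hε : 0 < ε) (hε1 : ε ≤ 1) (he0 : 0 < e)
    (he : Real.sqrt e ≤ ε / (400 * B)) (hb0 : 0 ≤ b) (hb : b ≤ 2 / q + e)
    (hκ0 : 0 < κ) (hκ : κ ≤ ε / (16 * B))
    (hcn : Real.sqrt cn ≤ Real.sqrt x + Real.sqrt e) (hcn0 : 0 ≤ cn)
    (h1 : x - e ≤ ∑ i, o i * (F i * S i)) (h2 : ∑ i, o i * F i ^ 2 ≤ b * cn + e)
    (h3 : ∑ i, o i * S i ^ 2 ≤ 2 * x) :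
    ∃ t : Finset ι, (∀ i ∈ t, κ * |S i| ≤ |F i| ∧ S i ≠ 0) ∧
      1 / 2 * (q * x) - ε ≤ ∑ i ∈ t, o i * S i ^ 2 := by
  classical
  refine ⟨Finset.univ.filter (fun i => κ * |S i| ≤ |F i| ∧ S i ≠ 0), fun i hi =>
    (Finset.mem_filter.mp hi).2, ?_⟩
  have ht : ∀ i, i ∉ Finset.univ.filter (fun i => κ * |S i| ≤ |F i| ∧ S i ≠ 0) →
      |F i| < κ * |S i| ∨ |S i| = 0 := by
    intro i hi
    by_contra h
    push Not at h
    apply hi
    rw [Finset.mem_filter]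
    exact ⟨Finset.mem_univ _, h.1, fun h' => h.2 (by rw [h', abs_zero])⟩
  have hpos : 0 ≤ ∑ i ∈ Finset.univ.filter (fun i => κ * |S i| ≤ |F i| ∧ S i ≠ 0),
      o i * S i ^ 2 := Finset.sum_nonneg fun i _ => mul_nonneg (ho i) (sq_nonneg _)
  have h1' : x - e ≤ ∑ i, o i * (|F i| * |S i|) := by
    refine h1.trans (Finset.sum_le_sum fun i _ => mul_le_mul_of_nonneg_left ?_ (ho i))
    rw [← abs_mul]
    exact le_abs_self _
  have h2' : ∑ i, o i * |F i| ^ 2 ≤ b * cn + e := by simpa only [sq_abs] using h2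
  have h3' : ∑ i, o i * |S i| ^ 2 ≤ 2 * x := by simpa only [sq_abs] using h3
  rcases hm_ineq (m₁ := x - e) (m₂ := b * cn + e) (m₃ := 2 * x) hq1 hq2 hx0 hxB hB hε hε1 he0 he
    hb0 hb hκ0 hκ hcn hcn0 rfl rfl rfl with h | ⟨h4, h5, h6⟩
  · linarith
  · have h7 := cs_large o (fun i => |F i|) (fun i => |S i|) ho (fun i => abs_nonneg _)
      (fun i => abs_nonneg _) hκ0.le h1' h2' h3' h4 h5 _ ht
    simp only [sq_abs] at h7
    exact h6.trans h7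

/-- removing atypical forms -/
theorem cr_fin {ι : Type} [Fintype ι] (o S H : ι → ℝ) (ho : ∀ i, 0 ≤ o i) (hH : ∀ i, 0 ≤ H i)
    {d e C v : ℝ} (he : 0 ≤ e)
    (h1 : ∑ i, o i * |S i ^ 2 - H i| ≤ d) (h4 : ∑ i, o i * (S i ^ 2) ^ 2 ≤ C)
    (t u : Finset ι) (hu : ∑ i ∈ u, o i ≤ e) (ht : v ≤ ∑ i ∈ t, o i * S i ^ 2)
    (hd : Real.sqrt (e * C) ≤ d) [DecidableEq ι] :
    v - 2 * d ≤ ∑ i ∈ t \ u, o i * H i := by
  have hsm : ∑ i ∈ u, o i * S i ^ 2 ≤ d := (fic_small o S ho he u hu h4).trans hd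
  have h2 : ∑ i ∈ t, o i * S i ^ 2 ≤ ∑ i ∈ t \ u, o i * S i ^ 2 + ∑ i ∈ u, o i * S i ^ 2 := by
    have h3 : ∑ i ∈ t, o i * S i ^ 2 ≤ ∑ i ∈ (t \ u) ∪ u, o i * S i ^ 2 := by
      apply Finset.sum_le_sum_of_subset_of_nonneg
      · intro i hi
        rw [Finset.sdiff_union_self_eq_union, Finset.mem_union]
        exact Or.inl hi
      · intro i _ _
        exact mul_nonneg (ho i) (sq_nonneg _)
    rw [Finset.sum_union Finset.sdiff_disjoint] at h3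
    exact h3
  have h5 : ∑ i ∈ t \ u, o i * S i ^ 2 ≤ ∑ i ∈ t \ u, o i * H i +
      ∑ i, o i * |S i ^ 2 - H i| := by
    have h6 : ∑ i ∈ t \ u, o i * |S i ^ 2 - H i| ≤ ∑ i, o i * |S i ^ 2 - H i| :=
      Finset.sum_le_sum_of_subset_of_nonneg (Finset.subset_univ _) fun i _ _ =>
        mul_nonneg (ho i) (abs_nonneg _)
    refine le_trans ?_ (add_le_add_right h6 _)
    rw [← Finset.sum_add_distrib]
    refine Finset.sum_le_sum fun i _ => ?_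
    have := mul_le_mul_of_nonneg_left (le_abs_self (S i ^ 2 - H i)) (ho i)
    linarith
  linarith

end Pool.Agent.LSP
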