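import Pool.Agent.Lib_helper68.LSPF.NG
import Pool.Agent.Lib_helper68.LEV.LVL
import Pool.Agent.Lib_helper68.KSLF.FMN
import Pool.Agent.Lib_helper68.KSLF.WWF
import Pool.Agent.Lib_helper68.KSLF.CSI
import Pool.Agent.Lib_helper68.KSLF.HMM
import Pool.Agent.Lib_helper68.KSLF.RPO

/-! LSP, part F: tools for the harmonic average. -/

namespace Pool.Agent.LSP

open Pool.Agent.LEV Pool.Agent.LVB Pool.Agent.KSL
open Pool.Agent.FG61 (mu phi cc ff AA Lam)
open Complex MeasureTheory Filter Topology UpperHalfPlane ModularGroup ProbabilityTheory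
open scoped MatrixGroups Modular ENNReal ModularForm ComplexConjugate ContDiff

theorem lh_odd {N : ℕ} [Fact N.Prime] {f : S2 N} (hf : IsNew f) (h : co f N ≠ 1) : Lh f = 0 := by
  obtain ⟨W, hW⟩ := fricke_exists (N := N)
  have h1 : co f N = -1 := (new_fricke hf hW).2.resolve_left h
  have h2 := func_eq hf 1 (by norm_num) (by norm_num)
  have h3 : (2 : ℂ) - 1 = 1 := by norm_num
  rw [h3, h1] at h2
  have hN : (0 : ℝ) < Real.sqrt N / (2 * Real.pi) := by
    have : (0 : ℝ) < N := by exact_mod_cast (Fact.out : N.Prime).pos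
    positivity
  have hN' : (((Real.sqrt N / (2 * Real.pi) : ℝ) : ℂ)) ≠ 0 := by exact_mod_cast hN.ne'
  rw [Complex.cpow_one, Complex.Gamma_one, mul_one] at h2
  have h4 : (2 : ℂ) * (((Real.sqrt N / (2 * Real.pi) : ℝ) : ℂ) * Lh f) = 0 := by
    show (2 : ℂ) * (((Real.sqrt N / (2 * Real.pi) : ℝ) : ℂ) *
      ModularForm.L (k := 2) two_pos f 1) = 0
    linear_combination h2
  rcases mul_eq_zero.mp h4 with h5 | h5
  · norm_num at h5
  · exact (mul_eq_zero.mp h5).resolve_left hN'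

/-- the linear term -/
theorem hm_lin {z M A m₀ : ℕ} {a s : ℕ → ℝ} (ha : ∀ k, a k ≠ 0 → smooth z k ∧ k ≤ A)
    (hM : 2 ≤ M) (hs : ∀ m, s m ≠ 0 → 1 ≤ m ∧ m ≤ m₀ ∧ smooth z m) {E : ℕ} {x : ℕ → ℝ}
    (hE : E = QA M 2 A) (hw : ∀ q, 1 ≤ q → wX E x q = wA z M 2 A a q) :
    (∀ m, s m ≠ 0 → |WW E (wX E x) m| ≤ Real.sqrt m * (|s m| + Real.sqrt (cd z A a s))) ∧
    |∑ m ∈ Finset.Icc 1 m₀, s m * WW E (wX E x) m / Real.sqrt m -
        ∑ m ∈ Finset.Icc 1 m₀, s m ^ 2| ≤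
      Real.sqrt ((∑ m ∈ Finset.Icc 1 m₀, s m ^ 2) * cd z A a s) := by
  classical
  have hWW : ∀ m, 1 ≤ m → smooth z m → WW E (wX E x) m = Ph A a m := by
    intro m hm hsm
    have e0 : WW E (wX E x) m = WW (QA M 2 A) (wA z M 2 A a) m := by
      unfold WW
      rw [← hE]
      refine Finset.sum_congr rfl fun q hq => ?_
      rw [hw q (Finset.mem_Icc.mp hq).1]
    rw [e0, ww_factor ha (by norm_num) hm, wr_rop z M 2 hm, fmn_rop hsm, wr_one hM, mul_one]
  have hcdS : Summable (fun m : ℕ => if smooth z m then (Ph A a m / Real.sqrt m - s m) ^ 2 else 0) := by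
    have h1 := (phi_al ha).1
    have h2 : Summable (fun m : ℕ => s m ^ 2) := by
      refine summable_of_ne_finset_zero (s := Finset.range (m₀ + 1)) fun m hm => ?_
      rw [Finset.mem_range] at hm
      have : s m = 0 := by
        by_contra h
        have := (hs m h).2.1
        omega
      rw [this]
      norm_num
    refine Summable.of_nonneg_of_le (fun m => ?_) (fun m => ?_) ((h1.mul_left 2).add (h2.mul_left 2))
    · split_ifs <;> positivity
    · by_cases h : smooth z m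
      · simp only [if_pos h]
        have e1 : Ph A a m ^ 2 / m = (Ph A a m / Real.sqrt m) ^ 2 := by
          rw [div_pow, Real.sq_sqrt (Nat.cast_nonneg m)]
        rw [e1]
        nlinarith [sq_nonneg (Ph A a m / Real.sqrt m + s m)]
      · simp only [if_neg h]
        have := sq_nonneg (s m)
        linarith
  have hcd0 : 0 ≤ cd z A a s := tsum_nonneg fun m => by split_ifs <;> positivity
  have hone : ∀ m, smooth z m → (Ph A a m / Real.sqrt m - s m) ^ 2 ≤ cd z A a s := by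
    intro m hm
    have := hcdS.le_tsum m (fun j _ => by split_ifs <;> positivity)
    rw [if_pos hm] at this
    exact this
  refine ⟨?_, ?_⟩
  · intro m hm
    obtain ⟨h1, -, h2⟩ := hs m hm
    rw [hWW m h1 h2]
    have hm0 : (0 : ℝ) < m := by exact_mod_cast h1
    have hsm : 0 < Real.sqrt m := Real.sqrt_pos.mpr hm0
    have h3 : |Ph A a m / Real.sqrt m - s m| ≤ Real.sqrt (cd z A a s) :=
      Real.abs_le_sqrt (hone m h2)
    have h4 : |Ph A a m / Real.sqrt m| ≤ |s m| + Real.sqrt (cd z A a s) := by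
      have := abs_sub_abs_le_abs_sub (Ph A a m / Real.sqrt m) (s m)
      linarith
    rw [abs_div, abs_of_pos hsm, div_le_iff₀ hsm] at h4
    linarith
  · set t : ℕ → ℝ := fun m => if smooth z m then Ph A a m / Real.sqrt m - s m else 0 with ht
    have ht2 : ∑ m ∈ Finset.Icc 1 m₀, t m ^ 2 ≤ cd z A a s := by
      have e1 : ∀ m ∈ Finset.Icc 1 m₀, t m ^ 2 =
          if smooth z m then (Ph A a m / Real.sqrt m - s m) ^ 2 else 0 := by
        intro m _
        simp only [ht]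
        split_ifs
        · rfl
        · norm_num
      rw [Finset.sum_congr rfl e1]
      unfold cd
      refine hcdS.sum_le_tsum _ fun m _ => ?_
      split_ifs <;> positivity
    have hterm : ∑ m ∈ Finset.Icc 1 m₀, s m * WW E (wX E x) m / Real.sqrt m -
        ∑ m ∈ Finset.Icc 1 m₀, s m ^ 2 = ∑ m ∈ Finset.Icc 1 m₀, s m * t m := by
      rw [← Finset.sum_sub_distrib]
      refine Finset.sum_congr rfl fun m hm => ?_
      by_cases h : s m = 0
      · rw [h]; ring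
      · obtain ⟨h1, -, h2⟩ := hs m h
        rw [hWW m h1 h2]
        simp only [ht, if_pos h2]
        ring
    rw [hterm]
    apply Real.abs_le_sqrt
    calc (∑ m ∈ Finset.Icc 1 m₀, s m * t m) ^ 2
        ≤ (∑ m ∈ Finset.Icc 1 m₀, s m ^ 2) * ∑ m ∈ Finset.Icc 1 m₀, t m ^ 2 :=
          Finset.sum_mul_sq_le_sq_mul_sq _ _ _
      _ ≤ (∑ m ∈ Finset.Icc 1 m₀, s m ^ 2) * cd z A a s :=
          mul_le_mul_of_nonneg_left ht2 (Finset.sum_nonneg fun m _ => sq_nonneg _)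

/-- the first moment from the quadratic inequality -/
theorem hm_first {ι : Type} [Fintype ι] (o F S : ι → ℝ) (ho : ∀ i, 0 ≤ o i) {Q l s₂ e dd τ : ℝ}
    (hτ : 0 < τ) (h : ∑ i, o i * (F i + -τ * S i) ^ 2 ≤ Q + 2 * -τ * l + (-τ) ^ 2 * s₂ + e)
    (hS : s₂ - dd ≤ ∑ i, o i * S i ^ 2) :
    l - (Q + e) / (2 * τ) - τ * dd / 2 ≤ ∑ i, o i * (F i * S i) := by
  have h1 : ∑ i, o i * (F i + -τ * S i) ^ 2 = ∑ i, o i * F i ^ 2 - 2 * τ * ∑ i, o i * (F i * S i) +
      τ ^ 2 * ∑ i, o i * S i ^ 2 := by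
    rw [Finset.mul_sum, Finset.mul_sum, ← Finset.sum_sub_distrib, ← Finset.sum_add_distrib]
    refine Finset.sum_congr rfl fun i _ => ?_
    ring
  have h2 : 0 ≤ ∑ i, o i * F i ^ 2 := Finset.sum_nonneg fun i _ => mul_nonneg (ho i) (sq_nonneg _)
  have h3 : τ ^ 2 * (s₂ - dd) ≤ τ ^ 2 * ∑ i, o i * S i ^ 2 :=
    mul_le_mul_of_nonneg_left hS (sq_nonneg _)
  rw [h1] at h
  have h4 : 2 * τ * (l - ∑ i, o i * (F i * S i)) ≤ Q + e + τ ^ 2 * dd := by
    generalize ∑ i, o i * (F i * S i) = u at *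
    generalize ∑ i, o i * F i ^ 2 = v at *
    generalize ∑ i, o i * S i ^ 2 = w at *
    linarith
  have h5 : l - ∑ i, o i * (F i * S i) ≤ (Q + e + τ ^ 2 * dd) / (2 * τ) := by
    rw [le_div_iff₀ (by positivity)]
    linarith
  have h6 : (Q + e + τ ^ 2 * dd) / (2 * τ) = (Q + e) / (2 * τ) + τ * dd / 2 := by
    field_simp
  linarith

/-- the elementary inequality -/
theorem hm_ineq {q x e B ε b κ cn m₁ m₂ m₃ : ℝ} (hq1 : 1 / 2 ≤ q) (hq2 : q ≤ 1) (hx0 : 0 ≤ x)
    (hxB : x ≤ B) (hB : 1 ≤ B) (hε : 0 < ε) (hε1 : ε ≤ 1) (he0 : 0 < e)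
    (he : Real.sqrt e ≤ ε / (400 * B)) (hb0 : 0 ≤ b) (hb : b ≤ 2 / q + e)
    (hκ0 : 0 < κ) (hκ : κ ≤ ε / (16 * B))
    (hcn : Real.sqrt cn ≤ Real.sqrt x + Real.sqrt e) (hcn0 : 0 ≤ cn) (hm1 : m₁ = x - e)
    (hm2 : m₂ = b * cn + e) (hm3 : m₃ = 2 * x) :
    1 / 2 * (q * x) - ε ≤ 0 ∨
      (κ * m₃ ≤ m₁ ∧ 0 < m₂ ∧ 1 / 2 * (q * x) - ε ≤ (m₁ - κ * m₃) ^ 2 / m₂) := by
  by_cases hx : x ≤ 2 * ε
  · left
    have := mul_le_of_le_one_left hx0 hq2
    linarith
  right
  push Not at hx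
  have hse : Real.sqrt e ≤ 1 / 400 := by
    refine he.trans ?_
    rw [div_le_div_iff₀ (by positivity) (by norm_num)]
    nlinarith
  have he2 : e = Real.sqrt e ^ 2 := (Real.sq_sqrt he0.le).symm
  have hs0 : 0 ≤ Real.sqrt e := Real.sqrt_nonneg e
  have he3 : e ≤ Real.sqrt e / 400 := by
    have := mul_le_mul_of_nonneg_left hse hs0
    rw [← sq, ← he2] at this
    linarith
  have heB : Real.sqrt e * B ≤ ε / 400 := by
    have := mul_le_mul_of_nonneg_right he (by linarith : (0:ℝ) ≤ B)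
    calc _ ≤ ε / (400 * B) * B := this
      _ = ε / 400 := by field_simp
  have hseε : Real.sqrt e ≤ ε / 400 := by
    have := mul_le_mul_of_nonneg_left hB hs0
    linarith
  have heε : e ≤ ε / 100000 := by linarith
  have heB' : e * B ≤ ε / 100000 := by
    have := mul_le_mul_of_nonneg_right he3 (by linarith : (0:ℝ) ≤ B)
    linarith
  have hκB : κ * B ≤ ε / 16 := by
    have := mul_le_mul_of_nonneg_right hκ (by linarith : (0:ℝ) ≤ B)
    calc _ ≤ ε / (16 * B) * B := this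
      _ = ε / 16 := by field_simp
  have hcn2 : cn ≤ (Real.sqrt x + Real.sqrt e) ^ 2 := by
    calc cn = Real.sqrt cn ^ 2 := (Real.sq_sqrt hcn0).symm
      _ ≤ _ := pow_le_pow_left₀ (Real.sqrt_nonneg _) hcn 2
  have hsx : Real.sqrt x ≤ B := by
    have : B * 1 ≤ B * B := mul_le_mul_of_nonneg_left hB (by linarith)
    refine Real.sqrt_le_iff.mpr ⟨by linarith, ?_⟩
    rw [sq]
    linarith
  have hcn3 : cn ≤ x + ε / 100 := by
    have h1 : Real.sqrt x * Real.sqrt e ≤ B * Real.sqrt e := mul_le_mul_of_nonneg_right hsx hs0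
    have h2 : (Real.sqrt x + Real.sqrt e) ^ 2 = x + 2 * (Real.sqrt x * Real.sqrt e) + e := by
      linear_combination Real.sq_sqrt hx0 + Real.sq_sqrt he0.le
    rw [h2] at hcn2
    linarith
  have hq0 : 0 < q := by linarith
  have hqq : q * (2 / q) = 2 := by field_simp
  have h2q : 2 ≤ 2 / q := by
    rw [le_div_iff₀ hq0]; linarith
  have h2q' : 2 / q ≤ 4 := by
    rw [div_le_iff₀ hq0]; linarith
  obtain ⟨b₀, hb₀⟩ : ∃ b₀ : ℝ, b₀ = 2 / q := ⟨_, rfl⟩
  rw [← hb₀] at hb hqq h2q h2q'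
  have hm2u : m₂ ≤ b₀ * x + ε / 8 := by
    have h2 : b * cn ≤ (b₀ + e) * cn := mul_le_mul_of_nonneg_right hb hcn0
    have h3 : (b₀ + e) * cn ≤ (b₀ + e) * (x + ε / 100) :=
      mul_le_mul_of_nonneg_left hcn3 (by linarith)
    have h4 : e * x ≤ e * B := mul_le_mul_of_nonneg_left hxB he0.le
    have h5 : b₀ * (ε / 100) ≤ 4 * (ε / 100) := mul_le_mul_of_nonneg_right h2q' (by positivity)
    have h6 : e * (ε / 100) ≤ 1 * (ε / 100) :=
      mul_le_mul_of_nonneg_right (by linarith) (by positivity)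
    have h7 : (b₀ + e) * (x + ε / 100) = b₀ * x + b₀ * (ε / 100) + e * x + e * (ε / 100) := by ring
    rw [h7] at h3
    rw [hm2]
    linarith
  have hm2p : 0 < m₂ := by
    rw [hm2]
    have : 0 ≤ b * cn := mul_nonneg hb0 hcn0
    linarith
  have hκx : κ * x ≤ ε / 16 := (mul_le_mul_of_nonneg_left hxB hκ0.le).trans hκB
  have hdiff : x - ε / 4 ≤ m₁ - κ * m₃ := by
    rw [hm1, hm3]
    have : κ * (2 * x) = 2 * (κ * x) := by ring
    rw [this]
    linarith
  refine ⟨by linarith, hm2p, ?_⟩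
  by_cases hneg : 1 / 2 * (q * x) - ε ≤ 0
  · exact hneg.trans (by positivity)
  push Not at hneg
  rw [le_div_iff₀ hm2p]
  have h1 : (1 / 2 * (q * x) - ε) * m₂ ≤ (1 / 2 * (q * x) - ε) * (b₀ * x + ε / 8) :=
    mul_le_mul_of_nonneg_left hm2u hneg.le
  have h2 : (x - ε / 4) ^ 2 ≤ (m₁ - κ * m₃) ^ 2 :=
    pow_le_pow_left₀ (by linarith) hdiff 2
  have h3 : 1 / 2 * (q * x) * (b₀ * x) = x ^ 2 := by
    linear_combination (1 / 2 * x ^ 2) * hqq
  have h4 : (1 / 2 * (q * x) - ε) * (b₀ * x + ε / 8) ≤ (x - ε / 4) ^ 2 := by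
    have h5 : q * x * ε ≤ x * ε :=
      mul_le_mul_of_nonneg_right (mul_le_of_le_one_left hx0 hq2) hε.le
    have h6 : 2 * x * ε ≤ b₀ * x * ε :=
      mul_le_mul_of_nonneg_right (mul_le_mul_of_nonneg_right h2q hx0) hε.le
    have h7 : (1 / 2 * (q * x) - ε) * (b₀ * x + ε / 8) =
        x ^ 2 + (q * x * ε) / 16 - b₀ * x * ε - ε ^ 2 / 8 := by
      linear_combination h3
    have h8 : (x - ε / 4) ^ 2 = x ^ 2 - x * ε / 2 + ε ^ 2 / 16 := by ring
    have h9 : 0 ≤ x * ε := mul_nonneg hx0 hε.le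
    have h10 : 0 ≤ ε ^ 2 := sq_nonneg ε
    rw [h7, h8]
    linarith
  linarith

end Pool.Agent.LSP
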