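import Pool.Agent.Lib_helper68.LSPF.TM
import Pool.Agent.Lib_helper68.KSLF.FID

/-! LSP, part F: the passage to equal weights. -/

namespace Pool.Agent.LSP

open Pool.Agent.LEV Pool.Agent.LVB Pool.Agent.KSL
open Pool.Agent.FG61 (mu phi cc ff AA Lam)
open Complex MeasureTheory Filter Topology UpperHalfPlane ModularGroup ProbabilityTheory
open scoped MatrixGroups Modular ENNReal ModularForm ComplexConjugate ContDiff

/-- from harmonic weights to equal weights -/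
theorem nat_gen {q : ℝ} (hq0 : 0 ≤ q) (hq1 : q ≤ 1) {ε : ℝ} (hε : 0 < ε) :
    ∃ (A : Finset ℕ) (c : ℕ → ℝ) (ε₁ : ℝ) (N₀ : ℕ), (∀ a ∈ A, 1 ≤ a) ∧ (∀ a, 0 ≤ c a) ∧
      0 < ε₁ ∧ ∀ (N : ℕ) [Fact N.Prime], N₀ ≤ N → ∀ E : S2 N → Prop,
      (∀ {ι : Type} [Fintype ι] (f : ι → S2 N), AllNew f → ∃ t : Finset ι,
        (∀ i ∈ t, co (f i) N = 1 ∧ E (f i)) ∧
        1 / 2 * (q * ∑ a ∈ A, c a) - ε₁ ≤ ∑ i ∈ t, om (f i) * Hd A c (la (f i))) →
      (N : ℝ) / 24 * (q - ε) ≤ ({f : S2 N | (IsNew f ∧ co f N = 1) ∧ E f}.ncard : ℝ) := by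
  classical
  obtain ⟨C₄, hC₄⟩ := nat_sharp
  obtain ⟨C, hC1, hCC⟩ : ∃ C : ℝ, 1 ≤ C ∧ C₄ ≤ C := ⟨max 1 C₄, le_max_left _ _, le_max_right _ _⟩
  obtain ⟨γ, hγ⟩ : ∃ γ : ℝ, γ = q := ⟨q, rfl⟩
  have hγ0 : 0 ≤ γ := by rw [hγ]; exact hq0
  have hγ1 : γ ≤ 1 := by rw [hγ]; exact hq1
  set K : ℝ := Real.sqrt (2 * Real.sqrt C) with hK
  have hK0 : 0 ≤ K := Real.sqrt_nonneg _
  obtain ⟨ε₁, he0, he1, he2⟩ : ∃ ε₁ : ℝ, 0 < ε₁ ∧ ε₁ ≤ 1 ∧ (4 + K) * Real.sqrt ε₁ ≤ ε / 2 := by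
    refine ⟨min 1 ((ε / (2 * (4 + K))) ^ 2), by positivity, min_le_left _ _, ?_⟩
    have h1 : Real.sqrt (min 1 ((ε / (2 * (4 + K))) ^ 2)) ≤ ε / (2 * (4 + K)) := by
      rw [← Real.sqrt_sq (show 0 ≤ ε / (2 * (4 + K)) by positivity)]
      exact Real.sqrt_le_sqrt (by
        rw [Real.sqrt_sq (by positivity)]
        exact min_le_right _ _)
    calc (4 + K) * Real.sqrt (min 1 ((ε / (2 * (4 + K))) ^ 2)) ≤ (4 + K) * (ε / (2 * (4 + K))) := by
          gcongr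
      _ = ε / 2 := by field_simp
  obtain ⟨z, A, hA, hAs, hAI, N₁, hs1⟩ := hC₄ ε₁ he0
  obtain ⟨ν, hν0, hν1, hνe⟩ := fid_exp
  obtain ⟨N₃, hN₃⟩ := exists_nat_gt ((((A.sup id) ^ 2 + 1 : ℕ) : ℝ) / ν ^ 2)
  obtain ⟨_, _, hnf⟩ := new_fin
  refine ⟨A, fun a => VV z / a, ε₁, max N₁ (max N₃ (z + 1)),
    fun a ha => Nat.one_le_iff_ne_zero.mpr (hA a ha).1,
    fun a => div_nonneg (fid_VV z) (Nat.cast_nonneg a), he0, fun N _ hN E hfin => ?_⟩
  have hN1 : N₁ ≤ N := le_trans (by simp) hN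
  have hN3 : N₃ ≤ N := le_trans (by simp) hN
  have hNz : z < N := Nat.lt_of_succ_le (le_trans (by simp) hN)
  have hN0 : (0 : ℝ) < N := by exact_mod_cast (Fact.out : N.Prime).pos
  have hXN : (((A.sup id) ^ 2 + 1 : ℕ) : ℝ) ≤ ν ^ 2 * N := by
    have h1 : (((A.sup id) ^ 2 + 1 : ℕ) : ℝ) / ν ^ 2 ≤ N :=
      hN₃.le.trans (by exact_mod_cast hN3)
    rw [div_le_iff₀ (by positivity)] at h1
    linarith
  have hF : {f : S2 N | IsNew f}.Finite := (hnf N).1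
  have : Fintype {f : S2 N // IsNew f} := hF.fintype
  set f : {f : S2 N // IsNew f} → S2 N := fun i => i.1 with hf
  have hinj : Function.Injective f := Subtype.coe_injective
  have hn : ∀ i, IsNew (f i) := fun i => i.2
  have hall : AllNew f := ⟨hinj, fun g => ⟨fun hg => ⟨⟨g, hg⟩, rfl⟩, fun ⟨i, hi⟩ => hi ▸ i.2⟩⟩
  have hom : ∀ i, 0 ≤ om (f i) := fun i => (fid_om (hn i)).2.1.le
  have hPr : ∀ p ∈ Pr N, p.Prime ∧ p < N := by
    intro p hp
    obtain ⟨h2, h3⟩ := Finset.mem_filter.mp hp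
    exact ⟨h3, Finset.mem_range.mp h2⟩
  obtain ⟨P, hP⟩ := st_exists (Pr N) (fun p hp => (hPr p hp).1)
  have hHA := fid_ha hA hNz
  have hHA0 : ∀ x, 0 ≤ HA z A x := by
    intro x
    unfold HA
    exact Finset.sum_nonneg fun a _ => mul_nonneg (div_nonneg (fid_VV z) (Nat.cast_nonneg a))
      (sq_nonneg _)
  -- moments
  have hmass : ∑ i, om (f i) ≤ 2 := by
    have h := transfer f hinj hn hν0 hν1 (X := 1) le_rfl (by
        refine le_trans ?_ hXN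
        exact_mod_cast Nat.le_add_left 1 _) hPr hP
      (G := fun _ => 0) ⟨fun _ => 0, fun m hm => absurd rfl hm, fun x => by simp⟩ 1
    have h4 : ∑ i, om (f i) * ((0 : ℝ) + 1 * se (f i)) ^ 2 = ∑ i, om (f i) := by
      refine Finset.sum_congr rfl fun i _ => ?_
      have := fid_se (hn i)
      linear_combination om (f i) * this
    simp only [h4] at h
    refine h.trans ?_
    simpa using hνe
  have hsq : ∑ i, om (f i) * HA z A (la (f i)) ^ 2 ≤ 2 * Real.sqrt C := by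
    have h := transfer f hinj hn hν0 hν1 (Nat.le_add_left 1 _) hXN hPr hP hHA 0
    have h4 : ∑ i, om (f i) * (HA z A (la (f i)) + 0 * se (f i)) ^ 2 =
        ∑ i, om (f i) * HA z A (la (f i)) ^ 2 := by simp only [zero_mul, add_zero]
    rw [h4] at h
    have h5 : ∫ x, HA z A x ^ 2 ∂P ≤ Real.sqrt C := by
      apply Real.le_sqrt_of_sq_le
      refine (fid_four hP hHA).trans (((hAI (Pr N) (fun p hp => (hPr p hp).1) ?_ P hP).2).trans hCC)
      intro p hp hpz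
      exact Finset.mem_filter.mpr ⟨Finset.mem_range.mpr (by omega), hp⟩
    have h6 : 0 ≤ ∫ x, HA z A x ^ 2 ∂P := integral_nonneg fun x => sq_nonneg _
    calc _ ≤ _ := h
      _ ≤ 2 * (Real.sqrt C + 0 ^ 2) := by
        apply mul_le_mul hνe _ (by positivity) (by norm_num)
        linarith
      _ = _ := by ring
  -- the sets
  obtain ⟨t, ht, htsum⟩ := hfin f hall
  set s : Finset {f : S2 N // IsNew f} := Finset.univ.filter
    (fun i => 4 * Real.pi * nr (f i) < N / 12 * ((1 - ε₁) * HA z A (la (f i)) - ε₁)) with hs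
  have hsm : ∑ i ∈ s, om (f i) ≤ ε₁ :=
    hs1 N hN1 f hinj hn s (fun i hi => (Finset.mem_filter.mp hi).2)
  have htsum' : 1 / 2 * ((1 - ε₁) * γ) - ε₁ ≤ ∑ i ∈ t, om (f i) * HA z A (la (f i)) := by
    have h1 : ∑ a ∈ A, VV z / (a : ℝ) = VV z * ∑ a ∈ A, 1 / (a : ℝ) := by
      rw [Finset.mul_sum]
      exact Finset.sum_congr rfl fun a _ => by ring
    have h2 : 1 / 2 * ((∑ a ∈ A, VV z / (a : ℝ)) * γ) - ε₁ ≤
        ∑ i ∈ t, om (f i) * HA z A (la (f i)) := by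
      rw [mul_comm (∑ a ∈ A, VV z / (a : ℝ)) γ, hγ]
      exact htsum
    rw [h1] at h2
    have h3 : (1 - ε₁) * γ ≤ (VV z * ∑ a ∈ A, 1 / (a : ℝ)) * γ :=
      mul_le_mul_of_nonneg_right hAs hγ0
    linarith
  have hbad : ∑ i ∈ s, om (f i) * HA z A (la (f i)) ≤ Real.sqrt ε₁ * K := by
    refine fid_cs s (fun i => om (f i)) (fun i => HA z A (la (f i))) hom hsm ?_ he0.le
    refine le_trans ?_ hsq
    exact Finset.sum_le_sum_of_subset_of_nonneg (Finset.subset_univ _)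
      fun i _ _ => mul_nonneg (hom i) (sq_nonneg _)
  have hgood : 1 / 2 * ((1 - ε₁) * γ) - ε₁ - Real.sqrt ε₁ * K ≤
      ∑ i ∈ t \ s, om (f i) * HA z A (la (f i)) := by
    have h1 := Finset.sum_sdiff_sub_sum_sdiff (s₁ := t) (s₂ := s)
      (f := fun i => om (f i) * HA z A (la (f i)))
    have h2 : 0 ≤ ∑ i ∈ s \ t, om (f i) * HA z A (la (f i)) :=
      Finset.sum_nonneg fun i _ => mul_nonneg (hom i) (hHA0 _)
    linarith
  have hmt : ∑ i ∈ t \ s, om (f i) ≤ 2 :=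
    (Finset.sum_le_sum_of_subset_of_nonneg (Finset.subset_univ _) fun i _ _ => hom i).trans hmass
  have hcard : (N : ℝ) / 12 * ((1 - ε₁) * ∑ i ∈ t \ s, om (f i) * HA z A (la (f i)) -
      ε₁ * ∑ i ∈ t \ s, om (f i)) ≤ (t \ s).card := by
    calc (N : ℝ) / 12 * ((1 - ε₁) * ∑ i ∈ t \ s, om (f i) * HA z A (la (f i)) -
          ε₁ * ∑ i ∈ t \ s, om (f i)) =
        ∑ i ∈ t \ s, (N : ℝ) / 12 * ((1 - ε₁) * HA z A (la (f i)) - ε₁) * om (f i) := by
          rw [Finset.mul_sum, Finset.mul_sum, ← Finset.sum_sub_distrib, Finset.mul_sum]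
          exact Finset.sum_congr rfl fun i _ => by ring
      _ ≤ ∑ i ∈ t \ s, 1 := by
          refine Finset.sum_le_sum fun i hi => ?_
          obtain ⟨h6, h7, h8⟩ := fid_om (hn i)
          have h9 : i ∉ s := (Finset.mem_sdiff.mp hi).2
          have h10 : (N : ℝ) / 12 * ((1 - ε₁) * HA z A (la (f i)) - ε₁) ≤
              4 * Real.pi * nr (f i) := by
            by_contra hcon
            push Not at hcon
            exact h9 (Finset.mem_filter.mpr ⟨Finset.mem_univ _, hcon⟩)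
          exact (mul_le_mul_of_nonneg_right h10 h7.le).trans h8.le
      _ = (t \ s).card := by simp
  have hfinal : (N : ℝ) / 24 * (γ - ε) ≤ (t \ s).card := by
    refine le_trans ?_ hcard
    have h1 : ε₁ ≤ Real.sqrt ε₁ := by
      apply Real.le_sqrt_of_sq_le
      nlinarith
    have h2 : 0 ≤ Real.sqrt ε₁ := Real.sqrt_nonneg _
    have h3 : (1 - ε₁) * (1 / 2 * ((1 - ε₁) * γ) - ε₁ - Real.sqrt ε₁ * K) ≤
        (1 - ε₁) * ∑ i ∈ t \ s, om (f i) * HA z A (la (f i)) :=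
      mul_le_mul_of_nonneg_left hgood (by linarith)
    have h4 : ε₁ * ∑ i ∈ t \ s, om (f i) ≤ ε₁ * 2 := mul_le_mul_of_nonneg_left hmt he0.le
    have h5 : 1 / 2 * γ - ε / 2 ≤
        (1 - ε₁) * (1 / 2 * ((1 - ε₁) * γ) - ε₁ - Real.sqrt ε₁ * K) - ε₁ * 2 := by
      have h6 : 1 / 2 * γ - ε₁ ≤ (1 - ε₁) * (1 / 2 * ((1 - ε₁) * γ)) := by
        nlinarith [mul_nonneg he0.le hγ0, mul_nonneg (mul_nonneg he0.le he0.le) hγ0,
          mul_le_mul_of_nonneg_left hγ1 he0.le]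
      have h7 : (1 - ε₁) * (ε₁ + Real.sqrt ε₁ * K) ≤ ε₁ + Real.sqrt ε₁ * K := by
        have : 0 ≤ ε₁ + Real.sqrt ε₁ * K := by positivity
        nlinarith
      nlinarith
    have h8 : (N : ℝ) / 24 * (γ - ε) = (N : ℝ) / 12 * (1 / 2 * γ - ε / 2) := by ring
    rw [h8]
    apply mul_le_mul_of_nonneg_left _ (by positivity)
    linarith
  rw [← hγ]
  refine hfinal.trans ?_
  norm_cast
  rw [← Finset.card_image_of_injective (t \ s) hinj, ← Set.ncard_coe_finset]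
  apply Set.ncard_le_ncard
  · intro g hg
    obtain ⟨i, hi, rfl⟩ := Finset.mem_image.mp (Finset.mem_coe.mp hg)
    obtain ⟨h7, h8⟩ := ht i (Finset.mem_sdiff.mp hi).1
    exact ⟨⟨hn i, h7⟩, h8⟩
  · exact hF.subset fun g hg => hg.1.1


end Pool.Agent.LSP
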