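import Pool.Agent.Lib_helper68.LSPF.SZ
import Pool.Agent.Lib_helper68.LEV.EIA
import Pool.Agent.Lib_helper68.LEV.FRK
import Pool.Agent.Lib_helper68.LEV.PET
import Pool.Agent.Lib_helper68.LEV.HAR
import Pool.Agent.Lib_helper41.LVBF.STE
import Pool.Agent.Lib_helper41.LVBF.STO
import Pool.Agent.Lib_helper41.LVBF.TRA
import Pool.Agent.Lib_helper68.KSLF.MRB
import Pool.Agent.Lib_helper68.KSLF.TYM
import Pool.Agent.Lib_helper68.KSLF.BZP
import Pool.Agent.Lib_helper68.KSLF.FIA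

/-! LSP, part F: typical size of the mollifier. -/

namespace Pool.Agent.LSP

open Pool.Agent.LEV Pool.Agent.LVB Pool.Agent.KSL
open Pool.Agent.FG61 (mu phi cc ff AA Lam)
open Complex MeasureTheory Filter Topology UpperHalfPlane ModularGroup ProbabilityTheory
open scoped MatrixGroups Modular ENNReal ModularForm ComplexConjugate ContDiff

/-- the length of the mollifier -/
theorem tm_len {κ : ℝ} (h1 : κ < 1 / 8) : ∃ X₀ : ℕ, ∀ X : ℕ, X₀ ≤ X → ∀ N : ℕ,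
    X ≤ 2 * N → ((2 * MM (-κ) X : ℕ) : ℝ) ≤ (1 / 100) ^ 2 * N ∧ 2 * MM (-κ) X < N := by
  obtain ⟨X₀, hX₀⟩ := fia_grow (a := 1 / 2 - -κ) (c := (1 / 100) ^ 2 / 4) (by linarith) (by positivity)
  refine ⟨X₀ + 1, fun X hX N hN => ?_⟩
  have h2 := hX₀ X (by omega)
  have h3 : (MM (-κ) X : ℝ) ≤ (X : ℝ) ^ (1 / 2 - -κ) := Nat.floor_le (by positivity)
  have h4 : (X : ℝ) ≤ 2 * N := by exact_mod_cast hN
  have hN0 : (0 : ℝ) < N := by
    have : 0 < N := by omega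
    exact_mod_cast this
  have h5 : ((2 * MM (-κ) X : ℕ) : ℝ) ≤ (1 / 100) ^ 2 * N := by
    push_cast
    linarith
  refine ⟨h5, ?_⟩
  have h6 : ((2 * MM (-κ) X : ℕ) : ℝ) < N := by nlinarith
  exact_mod_cast h6

theorem tm_hpoly {κ : ℝ} (h1 : κ < 1 / 8) : ∃ X₀ : ℕ, ∀ X : ℕ, X₀ ≤ X → ∀ N : ℕ, X ≤ 2 * N →
    HPoly (Pr N) (2 * MM (-κ) X) (Mr (zz X) (MM (-κ) X) 2) ∧
      ∀ m, mrbc (zz X) (MM (-κ) X) 2 m ≠ 0 → 1 ≤ m ∧ m ≤ 2 * MM (-κ) X ∧
        m.primeFactors ⊆ Pr N := by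
  obtain ⟨X₀, hX₀⟩ := tm_len h1
  refine ⟨X₀, fun X hX N hN => ?_⟩
  obtain ⟨-, hlt⟩ := hX₀ X hX N hN
  have hc : ∀ m, mrbc (zz X) (MM (-κ) X) 2 m ≠ 0 → 1 ≤ m ∧ m ≤ 2 * MM (-κ) X ∧
        m.primeFactors ⊆ Pr N := by
    intro m hm
    obtain ⟨e, he, hme, hy⟩ := mrb_ne hm
    rw [Finset.mem_Icc] at he
    refine ⟨Nat.pos_of_dvd_of_pos hme (by omega), (Nat.le_of_dvd (by omega) hme).trans he.2, ?_⟩
    intro p hp
    have hp' := Nat.mem_primeFactors.mp hp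
    unfold Pr
    rw [Finset.mem_filter, Finset.mem_range]
    refine ⟨?_, hp'.1⟩
    have : p ≤ e := Nat.le_of_dvd (by omega) (hp'.2.1.trans hme)
    omega
  exact ⟨⟨mrbc (zz X) (MM (-κ) X) 2, hc, fun x => mrb_exp _ _ _ x⟩, hc⟩

theorem tm_sq {κ : ℝ} (h0 : -1 / 4 < κ) (h1 : κ < 1 / 8) : ∃ (C : ℝ) (X₀ : ℕ), 0 < C ∧ ∀ X : ℕ,
    X₀ ≤ X → ∀ N : ℕ, X ≤ 2 * N → ∀ P : Measure (ℕ → ℝ), IsST (Pr N) P →
      ∫ x, Mr (zz X) (MM (-κ) X) 2 x ^ 2 ∂P ≤ C * Real.log (Real.log X) ^ 8 := by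
  classical
  obtain ⟨N₁, hN₁⟩ := sizes_gen (δ := -κ) (by linarith) (ε := 1) one_pos
  obtain ⟨N₂, hN₂⟩ := be_small_gen (δ := -κ) (by linarith) (ε := 1) one_pos
  obtain ⟨N₃, hN₃⟩ := tm_len h1
  obtain ⟨N₄, hN₄⟩ := tm_hpoly h1
  obtain ⟨C, hC, hup⟩ := rsum_up
  refine ⟨(C * 3) ^ 3, 5 + N₁ + N₂ + N₃ + N₄, by positivity, fun N hN N' hN' P hP => ?_⟩
  obtain ⟨hN3, hz2, hzM, _, hlz, hsz, _, hll, _⟩ := hN₁ N (by omega)
  obtain ⟨_, hbe, _⟩ := hN₂ N (by omega)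
  rw [one_mul] at hbe
  have hM2 : 2 ≤ MM (-κ) N := by omega
  have hlt := (hN₃ N (by omega) N (by omega)).2
  have hc := (hN₄ N (by omega) N' hN').2
  set z := zz N with hz
  set M := MM (-κ) N with hM
  have hPr : ∀ p ∈ Pr N', p.Prime := by
    intro p hp
    unfold Pr at hp
    exact (Finset.mem_filter.mp hp).2
  have h2 : ∫ x, Mr z M 2 x ^ 2 ∂P = ∑ m ∈ Finset.Icc 1 (2 * M), mrbc z M 2 m ^ 2 := by
    rw [← st_sq hPr hP hc]
    refine integral_congr_ae (Eventually.of_forall (fun x => ?_))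
    simp only
    rw [mrb_exp]
  rw [h2]
  set R := ∑ r ∈ RO z (2 * M), mu r ^ 2 / phi r with hR
  have hR0 : 0 ≤ R := Finset.sum_nonneg (fun r _ => by unfold phi; positivity)
  have h3 : ∑ m ∈ Finset.Icc 1 (2 * M), mrbc z M 2 m ^ 2 ≤ R ^ 3 := by
    have h4 : ∑ m ∈ Finset.Icc 1 (2 * M), mrbc z M 2 m ^ 2 ≤
        ∑ m ∈ Finset.Icc 1 (2 * M), R ^ 2 * (if m ∈ RO z (2 * M) then mu m ^ 2 / phi m else 0) :=
      Finset.sum_le_sum (fun m hm => mrb_c_le hM2 hbe m (Finset.mem_Icc.mp hm).1)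
    refine h4.trans (le_of_eq ?_)
    rw [← Finset.mul_sum, ← Finset.sum_filter]
    have h5 : (Finset.Icc 1 (2 * M)).filter (fun m => m ∈ RO z (2 * M)) = RO z (2 * M) := by
      ext m
      simp only [Finset.mem_filter]
      constructor
      · exact fun h => h.2
      · intro h
        refine ⟨?_, h⟩
        unfold RO at h
        exact (Finset.mem_filter.mp h).1
    rw [h5]
    ring
  refine h3.trans ?_
  have hlz0 : 0 < Real.log z := by linarith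
  have hll1 : 1 ≤ Real.log (Real.log N) := by linarith
  have h6 : R ≤ C * 3 * Real.log (Real.log N) ^ 2 := by
    refine (hup z (2 * M) hz2 (by omega)).trans ?_
    have h7 : Real.log ((2 * M : ℕ) : ℝ) ≤ Real.log N := by
      apply Real.log_le_log
      · exact_mod_cast (by omega : 0 < 2 * M)
      · exact_mod_cast hlt.le
    have h8 : Real.log ((2 * M : ℕ) : ℝ) / Real.log z ≤ 2 * Real.log (Real.log N) ^ 2 := by
      rw [div_le_iff₀ hlz0]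
      linarith
    have h9 : 1 ≤ Real.log (Real.log N) ^ 2 := one_le_pow₀ hll1
    rw [mul_assoc]
    refine mul_le_mul_of_nonneg_left ?_ hC.le
    linarith
  calc R ^ 3 ≤ (C * 3 * Real.log (Real.log N) ^ 2) ^ 3 := pow_le_pow_left₀ hR0 h6 3
    _ = (C * 3) ^ 3 * Real.log (Real.log N) ^ 6 := by ring
    _ ≤ (C * 3) ^ 3 * Real.log (Real.log N) ^ 8 := by
        refine mul_le_mul_of_nonneg_left ?_ (by positivity)
        exact pow_le_pow_right₀ hll1 (by norm_num)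

/-- growth -/
theorem tm_lim (C : ℝ) {ε : ℝ} (hε : 0 < ε) : ∃ X₀ : ℕ, ∀ X : ℕ, X₀ ≤ X →
    1 ≤ Real.log X ∧ C * Real.log (Real.log X) ^ 8 ≤ ε * Real.log X ^ 2 := by
  obtain ⟨N₀, hN₀⟩ := tym_lim 8 (ε := 1) one_pos C hε
  have hll : Tendsto (fun N : ℕ => Real.log (Real.log (N : ℝ))) atTop atTop :=
    Real.tendsto_log_atTop.comp (Real.tendsto_log_atTop.comp tendsto_natCast_atTop_atTop)
  have hl : Tendsto (fun N : ℕ => Real.log (N : ℝ)) atTop atTop :=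
    Real.tendsto_log_atTop.comp tendsto_natCast_atTop_atTop
  obtain ⟨N₁, hN₁⟩ := Filter.eventually_atTop.mp
    ((hll.eventually_ge_atTop 1).and (hl.eventually_ge_atTop 1))
  refine ⟨N₀ + N₁, fun X hX => ?_⟩
  have h1 := hN₀ X (by omega)
  obtain ⟨h2, h3⟩ := hN₁ X (by omega)
  refine ⟨h3, h1.trans (mul_le_mul_of_nonneg_left ?_ hε.le)⟩
  have h4 : Real.sqrt (Real.log (Real.log X)) ≤ 2 * Real.log (Real.log X) := by
    apply Real.sqrt_le_iff.mpr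
    constructor
    · linarith
    · nlinarith
  have h5 : Real.log X ^ 2 = Real.exp (2 * Real.log (Real.log X)) := by
    rw [two_mul, Real.exp_add, Real.exp_log (by linarith)]
    ring
  rw [h5, one_mul]
  exact Real.exp_le_exp.mpr h4

theorem typ_m_gen {κ : ℝ} (h0 : -1 / 4 < κ) (h1 : κ < 1 / 8) {ε : ℝ} (hε : 0 < ε) : ∃ X₀ : ℕ,
    ∀ X : ℕ, X₀ ≤ X → ∀ (N : ℕ) [Fact N.Prime], X ≤ 2 * N → ∀ {ι : Type} [Fintype ι]
    (f : ι → S2 N), Function.Injective f → (∀ i, IsNew (f i)) → ∀ t : Finset ι,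
      (∀ i ∈ t, Real.log X < |Mr (zz X) (MM (-κ) X) 2 (la (f i))|) → ∑ i ∈ t, om (f i) ≤ ε := by
  obtain ⟨N₁, hN₁⟩ := tm_hpoly h1
  obtain ⟨C, N₂, hC0, hN₂⟩ := tm_sq h0 h1
  obtain ⟨N₃, hN₃⟩ := tm_lim (2 * C) hε
  obtain ⟨N₄, hN₄⟩ := sizes_gen (δ := -κ) (by linarith) (ε := 1) one_pos
  obtain ⟨N₅, hN₅⟩ := tm_len h1
  refine ⟨N₁ + N₂ + N₃ + N₄ + N₅, fun X hX N _ hXN ι _ f hi hn t ht => ?_⟩
  have hPr : ∀ p ∈ Pr N, p.Prime ∧ p < N := by
    intro p hp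
    unfold Pr at hp
    rw [Finset.mem_filter, Finset.mem_range] at hp
    exact ⟨hp.2, hp.1⟩
  obtain ⟨P, hP⟩ := st_exists (Pr N) (fun p hp => (hPr p hp).1)
  have hMr := (hN₁ X (by omega) N hXN).1
  have hsq := hN₂ X (by omega) N hXN P hP
  have hz := hN₄ X (by omega)
  have hM1 : 1 ≤ 2 * MM (-κ) X := by
    have := hz.2.2.1
    omega
  have hM2 := (hN₅ X (by omega) N hXN).1
  have htr := transfer f hi hn (ν := 1 / 100) (by norm_num) (by norm_num) hM1 hM2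
    (I := Pr N) hPr hP hMr 0
  simp only [zero_mul, add_zero] at htr
  have h5 : (0 : ℝ) ≤ ∫ x, Mr (zz X) (MM (-κ) X) 2 x ^ 2 ∂P := integral_nonneg fun x => sq_nonneg _
  have h6 : ∑ i, om (f i) * Mr (zz X) (MM (-κ) X) 2 (la (f i)) ^ 2 ≤
      2 * (C * Real.log (Real.log X) ^ 8) := by
    refine htr.trans ?_
    exact mul_le_mul tym_exp (by linarith) (by linarith) (by norm_num)
  obtain ⟨hlog, hlim⟩ := hN₃ X (by omega)
  have h7 := HAR_cheb (fun i => om (f i)) (fun i => Mr (zz X) (MM (-κ) X) 2 (la (f i)) ^ 2)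
    (fun i => tym_om _) (fun i => sq_nonneg _)
    (t := Real.log X ^ 2) (by positivity) h6 t (by
      intro i hi'
      have h8 := ht i hi'
      show Real.log X ^ 2 ≤ Mr (zz X) (MM (-κ) X) 2 (la (f i)) ^ 2
      rw [← sq_abs (Mr (zz X) (MM (-κ) X) 2 (la (f i)))]
      exact pow_le_pow_left₀ (by linarith) h8.le 2)
  refine h7.trans ?_
  rw [div_le_iff₀ (by positivity)]
  calc 2 * (C * Real.log (Real.log X) ^ 8) = 2 * C * Real.log (Real.log X) ^ 8 := by ring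
    _ ≤ _ := hlim

/-- the small factor -/
theorem typ_b_gen (A₁ : ℕ) : ∃ B : ℕ, ∀ ε : ℝ, 0 < ε → ∃ X₀ : ℕ, ∀ X : ℕ, X₀ ≤ X → ∀ (N : ℕ)
    [Fact N.Prime], X ≤ 2 * N → N ≤ 4 * X → ∀ {ι : Type} [Fintype ι] (f : ι → S2 N),
    Function.Injective f → (∀ i, IsNew (f i)) → ∀ t : Finset ι,
      (∀ i ∈ t, Real.log X ^ B < |Bz A₁ X (la (f i))|) → ∑ i ∈ t, om (f i) ≤ ε := by
  obtain ⟨C, N₁, hN₁⟩ := bz_four A₁
  obtain ⟨N₂, hN₂⟩ := bz_hpoly A₁ (ε₂ := 1 / 4) (by norm_num)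
  obtain ⟨B, hB⟩ := exists_nat_ge (max C 0)
  refine ⟨B + 1, fun ε hε => ?_⟩
  have hl : Tendsto (fun N : ℕ => Real.log (N : ℝ)) atTop atTop :=
    Real.tendsto_log_atTop.comp tendsto_natCast_atTop_atTop
  obtain ⟨N₃, hN₃⟩ := Filter.eventually_atTop.mp
    (hl.eventually_ge_atTop (max 1 (4 / ε)))
  obtain ⟨N₄, hN₄⟩ := fia_grow (a := 1 / 4) (c := (1 / 100) ^ 2 / 4) (by norm_num) (by positivity)
  obtain ⟨N₅, hN₅⟩ := iz_split
  obtain ⟨N₆, hN₆⟩ := sizes_gen (δ := 1 / 8) (by norm_num) (ε := 1 / 4) (by norm_num)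
  refine ⟨N₁ + N₂ + N₃ + N₄ + N₅ + N₆ + 10 ^ 10, fun X hX N _ hXN _ ι _ f hi hn t ht => ?_⟩
  have hX0 : (1 : ℝ) ≤ X := by
    have : 1 ≤ X := by omega
    exact_mod_cast this
  have hXN' : (X : ℝ) ≤ 2 * N := by exact_mod_cast hXN
  obtain ⟨-, -, hIZ, -, -⟩ := hN₅ X (by omega)
  have hgr := hN₄ X (by omega)
  have hIZN : ∀ p ∈ IZ X, p.Prime ∧ p < N := by
    intro p hp
    refine ⟨(hIZ p hp).1, ?_⟩
    have h1 : p ≤ zz X := by
      unfold IZ at hp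
      exact (Finset.mem_Icc.mp (Finset.mem_filter.mp hp).1).2
    have h2 := (hN₆ X (by omega)).2.2.2.1
    have h3 : (zz X : ℝ) < N := by
      calc (zz X : ℝ) ≤ (X : ℝ) ^ (1 / 4 : ℝ) := h2
        _ ≤ (1 / 100) ^ 2 / 4 * X := hgr
        _ < N := by nlinarith
    have h4 : zz X < N := by exact_mod_cast h3
    omega
  obtain ⟨P, hP⟩ := st_exists (IZ X) (fun p hp => (hIZ p hp).1)
  obtain ⟨hint, h4⟩ := hN₁ X (by omega) P hP
  have hHP := hN₂ X (by omega)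
  have hlog : 1 ≤ Real.log X := (le_max_left _ _).trans (hN₃ X (by omega))
  have hlog2 : 4 / ε ≤ Real.log X := (le_max_right _ _).trans (hN₃ X (by omega))
  have hprob := hP.prob
  have hsq : ∫ x, Bz A₁ X x ^ 2 ∂P ≤ 2 * Real.log X ^ B := by
    have h5 : ∫ x, Bz A₁ X x ^ 2 ∂P ≤ ∫ x, (1 + Bz A₁ X x ^ 4) ∂P := by
      apply integral_mono_of_nonneg (Eventually.of_forall fun x => sq_nonneg _)
        ((integrable_const _).add hint)
      refine Eventually.of_forall fun x => ?_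
      show Bz A₁ X x ^ 2 ≤ 1 + Bz A₁ X x ^ 4
      nlinarith [sq_nonneg (Bz A₁ X x ^ 2 - 1)]
    rw [integral_add (integrable_const _) hint, integral_const, probReal_univ, one_smul] at h5
    have h6 : Real.log X ^ C ≤ Real.log X ^ B := by
      rw [← Real.rpow_natCast]
      exact Real.rpow_le_rpow_of_exponent_le hlog ((le_max_left _ _).trans hB)
    have h7 : (1 : ℝ) ≤ Real.log X ^ B := one_le_pow₀ hlog
    linarith
  have hX4 : 1 ≤ ⌊(X : ℝ) ^ (1 / 4 : ℝ)⌋₊ := by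
    rw [Nat.one_le_floor_iff]
    exact Real.one_le_rpow hX0 (by norm_num)
  have hX5 : ((⌊(X : ℝ) ^ (1 / 4 : ℝ)⌋₊ : ℕ) : ℝ) ≤ (1 / 100) ^ 2 * N := by
    refine (Nat.floor_le (by positivity)).trans (hgr.trans ?_)
    have : (0 : ℝ) ≤ N := Nat.cast_nonneg N
    linarith
  have htr := transfer f hi hn (ν := 1 / 100) (by norm_num) (by norm_num) hX4 hX5
    (I := IZ X) hIZN hP hHP 0
  simp only [zero_mul, add_zero] at htr
  have h5 : (0 : ℝ) ≤ ∫ x, Bz A₁ X x ^ 2 ∂P := integral_nonneg fun x => sq_nonneg _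
  have h6 : ∑ i, om (f i) * Bz A₁ X (la (f i)) ^ 2 ≤ 2 * (2 * Real.log X ^ B) := by
    refine htr.trans ?_
    exact mul_le_mul tym_exp (by linarith) (by linarith) (by norm_num)
  have h7 := HAR_cheb (fun i => om (f i)) (fun i => Bz A₁ X (la (f i)) ^ 2)
    (fun i => tym_om _) (fun i => sq_nonneg _)
    (t := (Real.log X ^ (B + 1)) ^ 2) (by positivity) h6 t (by
      intro i hi'
      have h8 := ht i hi'
      show (Real.log X ^ (B + 1)) ^ 2 ≤ Bz A₁ X (la (f i)) ^ 2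
      rw [← sq_abs (Bz A₁ X (la (f i)))]
      exact pow_le_pow_left₀ (by positivity) h8.le 2)
  refine h7.trans ?_
  rw [div_le_iff₀ (by positivity)]
  have h8 : (1 : ℝ) ≤ Real.log X ^ B := one_le_pow₀ hlog
  have h9 : 4 ≤ ε * Real.log X := by
    rw [div_le_iff₀ hε] at hlog2
    linarith
  have h10 : (Real.log X ^ (B + 1)) ^ 2 = Real.log X ^ B * (Real.log X ^ B * Real.log X) * Real.log X := by
    ring
  rw [h10]
  have h11 : 1 ≤ Real.log X ^ B * Real.log X := by nlinarith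
  have h12 : 0 ≤ Real.log X ^ B * (Real.log X ^ B * Real.log X) := by positivity
  calc 2 * (2 * Real.log X ^ B) = Real.log X ^ B * 1 * 4 := by ring
    _ ≤ Real.log X ^ B * (Real.log X ^ B * Real.log X) * (ε * Real.log X) := by gcongr
    _ = _ := by ring

end Pool.Agent.LSP
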