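import Pool.Agent.Lib_helper68.LSPF.TM
import Pool.Agent.Lib_helper68.KSLF.TYB

/-! LSP, part F: the sharp typical size of the mollifier. -/

namespace Pool.Agent.LSP

open Pool.Agent.LEV Pool.Agent.LVB Pool.Agent.KSL
open Pool.Agent.FG61 (mu phi cc ff AA Lam)
open Complex MeasureTheory Filter Topology UpperHalfPlane ModularGroup ProbabilityTheory
open scoped MatrixGroups Modular ENNReal ModularForm ComplexConjugate ContDiff

/-- `exp (C √l) ≤ exp (a l)` for large `l = log log X` -/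
theorem tb_lim (C : ℝ) {a : ℝ} (ha : 0 < a) : ∃ X₀ : ℕ, ∀ X : ℕ, X₀ ≤ X →
    C * Real.sqrt (Real.log (Real.log X)) ≤ a * Real.log (Real.log X) := by
  have hll : Tendsto (fun N : ℕ => Real.sqrt (Real.log (Real.log (N : ℝ)))) atTop atTop :=
    Real.tendsto_sqrt_atTop.comp (Real.tendsto_log_atTop.comp
      (Real.tendsto_log_atTop.comp tendsto_natCast_atTop_atTop))
  obtain ⟨N₀, hN₀⟩ := Filter.eventually_atTop.mp (hll.eventually_ge_atTop (max 1 (C / a)))
  refine ⟨N₀, fun X hX => ?_⟩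
  have h1 := hN₀ X hX
  set u := Real.sqrt (Real.log (Real.log (X : ℝ))) with hu
  have hu1 : 1 ≤ u := (le_max_left _ _).trans h1
  have hu2 : C / a ≤ u := (le_max_right _ _).trans h1
  have h2 : Real.log (Real.log (X : ℝ)) = u ^ 2 := by
    rw [hu, Real.sq_sqrt]
    by_contra h
    push Not at h
    rw [hu, Real.sqrt_eq_zero_of_nonpos h.le] at hu1
    linarith
  rw [div_le_iff₀ ha] at hu2
  rw [h2]
  nlinarith

theorem typ_m_sh {κ : ℝ} (h0 : -1 / 4 < κ) (h1 : κ < 1 / 8) {a : ℝ} (ha : 0 < a) {ε : ℝ}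
    (hε : 0 < ε) : ∃ X₀ : ℕ, ∀ X : ℕ, X₀ ≤ X → ∀ (N : ℕ) [Fact N.Prime], X ≤ 2 * N →
    ∀ {ι : Type} [Fintype ι] (f : ι → S2 N), Function.Injective f → (∀ i, IsNew (f i)) →
    ∀ t : Finset ι, (∀ i ∈ t, Real.log X ^ a < |Mr (zz X) (MM (-κ) X) 2 (la (f i))|) →
      ∑ i ∈ t, om (f i) ≤ ε := by
  obtain ⟨N₁, hN₁⟩ := tm_hpoly h1
  obtain ⟨C, N₂, hC0, hN₂⟩ := tm_sq h0 h1
  obtain ⟨N₃, hN₃⟩ := tym_lim 8 (ε := 1) one_pos (2 * C) hε
  obtain ⟨N₄, hN₄⟩ := sizes_gen (δ := -κ) (by linarith) (ε := 1) one_pos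
  obtain ⟨N₅, hN₅⟩ := tm_len h1
  obtain ⟨N₆, hN₆⟩ := tb_lim 1 (a := 2 * a) (by positivity)
  refine ⟨N₁ + N₂ + N₃ + N₄ + N₅ + N₆ + 3, fun X hX N _ hXN ι _ f hi hn t ht => ?_⟩
  have hPr : ∀ p ∈ Pr N, p.Prime ∧ p < N := by
    intro p hp
    unfold Pr at hp
    rw [Finset.mem_filter, Finset.mem_range] at hp
    exact ⟨hp.2, hp.1⟩
  obtain ⟨P, hP⟩ := st_exists (Pr N) (fun p hp => (hPr p hp).1)
  have hMr := (hN₁ X (by omega) N hXN).1
  have hsq := hN₂ X (by omega) N hXN P hP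
  have hz := hN₄ X (by omega)
  have hM1 : 1 ≤ 2 * MM (-κ) X := by
    have := hz.2.2.1
    omega
  have hM2 := (hN₅ X (by omega) N hXN).1
  have htr := transfer f hi hn (ν := 1 / 100) (by norm_num) (by norm_num) hM1 hM2
    (I := Pr N) hPr hP hMr 0
  simp only [zero_mul, add_zero] at htr
  have h5 : (0 : ℝ) ≤ ∫ x, Mr (zz X) (MM (-κ) X) 2 x ^ 2 ∂P := integral_nonneg fun x => sq_nonneg _
  have h6 : ∑ i, om (f i) * Mr (zz X) (MM (-κ) X) 2 (la (f i)) ^ 2 ≤
      2 * (C * Real.log (Real.log X) ^ 8) := by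
    refine htr.trans ?_
    exact mul_le_mul tym_exp (by linarith) (by linarith) (by norm_num)
  have hX3 : (3 : ℝ) ≤ X := by
    have : 3 ≤ X := by omega
    exact_mod_cast this
  have hlog : 0 < Real.log X := Real.log_pos (by linarith)
  have hexp : (Real.log X ^ a) ^ 2 = Real.exp (2 * a * Real.log (Real.log X)) := by
    rw [Real.rpow_def_of_pos hlog, ← Real.exp_nat_mul]
    congr 1
    push_cast
    ring
  have h7 := HAR_cheb (fun i => om (f i)) (fun i => Mr (zz X) (MM (-κ) X) 2 (la (f i)) ^ 2)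
    (fun i => tym_om _) (fun i => sq_nonneg _)
    (t := (Real.log X ^ a) ^ 2) (by positivity) h6 t (by
      intro i hi'
      have h8 := ht i hi'
      show (Real.log X ^ a) ^ 2 ≤ Mr (zz X) (MM (-κ) X) 2 (la (f i)) ^ 2
      rw [← sq_abs (Mr (zz X) (MM (-κ) X) 2 (la (f i)))]
      exact pow_le_pow_left₀ (by positivity) h8.le 2)
  refine h7.trans ?_
  rw [div_le_iff₀ (by positivity), hexp]
  have h9 := hN₃ X (by omega)
  have h10 : 1 * Real.sqrt (Real.log (Real.log X)) ≤ 2 * a * Real.log (Real.log X) :=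
    hN₆ X (by omega)
  calc 2 * (C * Real.log (Real.log X) ^ 8) = 2 * C * Real.log (Real.log X) ^ 8 := by ring
    _ ≤ ε * Real.exp (1 * Real.sqrt (Real.log (Real.log X))) := h9
    _ ≤ _ := by gcongr

theorem typ_b_sh {A₁ : ℕ} (hA : 1 ≤ A₁) {a : ℝ} (ha : 1 / 2 < a) {ε : ℝ} (hε : 0 < ε) :
    ∃ X₀ : ℕ, ∀ X : ℕ, X₀ ≤ X → ∀ (N : ℕ) [Fact N.Prime], X ≤ 2 * N →
    ∀ {ι : Type} [Fintype ι] (f : ι → S2 N), Function.Injective f → (∀ i, IsNew (f i)) →
    ∀ t : Finset ι, (∀ i ∈ t, Real.log X ^ a < |Bz A₁ X (la (f i))|) →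
      ∑ i ∈ t, om (f i) ≤ ε := by
  classical
  set E : ℝ := Real.exp (8 * Real.pi * (1 / 2)) with hE
  have hE0 : 0 < E := Real.exp_pos _
  set T : ℝ := Real.sqrt (2 * E / ε) with hTd
  have hT0 : 0 < T := Real.sqrt_pos.mpr (by positivity)
  have hT2 : T ^ 2 = 2 * E / ε := Real.sq_sqrt (by positivity)
  obtain ⟨N₁, hN₁⟩ := hb_in (ε := 1) one_pos
  obtain ⟨N₂, hN₂⟩ := tyb_lim 4 hε (2 * Real.exp 4) (κ := ε / 2) (by positivity)
  obtain ⟨N₃, hN₃⟩ := tyb_lim 0 (ε := ε / 2) (by positivity) 2 (κ := 1) one_pos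
  obtain ⟨N₅, hN₅⟩ := tb_lim (T + ε) (a := a - 1 / 2) (by linarith)
  have hll : Tendsto (fun N : ℕ => Real.sqrt (Real.log (Real.log (N : ℝ)))) atTop atTop :=
    Real.tendsto_sqrt_atTop.comp (Real.tendsto_log_atTop.comp
      (Real.tendsto_log_atTop.comp tendsto_natCast_atTop_atTop))
  have hlog2 : Tendsto (fun N : ℕ => Real.log (N : ℝ) ^ 2 / N) atTop (𝓝 0) := by
    have h1 := (Real.isLittleO_pow_log_id_atTop (n := 2)).tendsto_div_nhds_zero
    exact h1.comp tendsto_natCast_atTop_atTop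
  obtain ⟨N₄, hN₄⟩ := Filter.eventually_atTop.mp
    ((hll.eventually_ge_atTop (max 2 (2 * T))).and
      (hlog2.eventually (gt_mem_nhds (show (0 : ℝ) < 1 / 20000 by norm_num))))
  refine ⟨N₁ + N₂ + N₃ + N₄ + N₅ + 64, fun X hX N _ hXN ι _ f hi hn t ht => ?_⟩
  obtain ⟨hHB, _, _⟩ := hN₁ X (by omega)
  have hL4 := hN₂ X (by omega)
  have hL0 := hN₃ X (by omega)
  have hL5 := hN₅ X (by omega)
  obtain ⟨hu2, hlg⟩ := hN₄ X (by omega)
  set l : ℝ := Real.log (Real.log (X : ℝ)) with hl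
  set u : ℝ := Real.sqrt l with hu
  have hu2' : 2 ≤ u := (le_max_left _ _).trans hu2
  have huT : 2 * T ≤ u := (le_max_right _ _).trans hu2
  have hlu : l = u ^ 2 := by
    rw [hu, Real.sq_sqrt]
    by_contra h
    push Not at h
    rw [hu, Real.sqrt_eq_zero_of_nonpos h.le] at hu2'
    linarith
  have hl4 : 4 ≤ l := by rw [hlu]; nlinarith
  have hXr : (64 : ℝ) ≤ X := by exact_mod_cast (by omega : 64 ≤ X)
  have hXNr : (X : ℝ) ≤ 2 * N := by exact_mod_cast hXN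
  have hNr : (32 : ℝ) ≤ N := by linarith
  have hX0 : (0 : ℝ) < X := by linarith
  have hN0 : (0 : ℝ) < N := by linarith
  have hlogX : 0 < Real.log X := Real.log_pos (by linarith)
  have hexpl : Real.exp l = Real.log X := by rw [hl]; exact Real.exp_log hlogX
  have hlX : Real.log (X : ℝ) ^ 2 ≤ (1 / 100) ^ 2 * N := by
    have h1 := hlg.le
    rw [div_le_iff₀ hX0] at h1
    norm_num at h1 ⊢
    linarith
  have he2l : Real.exp (2 * l) ≤ (1 / 100) ^ 2 * N := by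
    have h1 : Real.exp (2 * l) = Real.log X ^ 2 := by
      rw [← hexpl, sq, ← Real.exp_add]; congr 1; ring
    rw [h1]
    exact hlX
  have hlltN : l < N := by
    have h1 : 2 * l + 1 ≤ Real.exp (2 * l) := Real.add_one_le_exp _
    nlinarith
  -- the tiny primes
  have hI0 : ∀ p ∈ I0 X, p.Prime ∧ p < N := by
    intro p hp
    unfold I0 at hp
    rw [Finset.mem_filter, Finset.mem_Icc] at hp
    refine ⟨hp.2, ?_⟩
    have h1 : (p : ℝ) ≤ l := (Nat.le_floor_iff (by linarith)).mp hp.1.2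
    exact_mod_cast h1.trans_lt hlltN
  obtain ⟨P, hP⟩ := st_exists (I0 X) (fun p hp => (hI0 p hp).1)
  have hhp := tyb_hp (I0 X) (fun p hp => (hI0 p hp).1)
  have hX1 : 1 ≤ ∏ p ∈ I0 X, p := Finset.prod_pos fun p hp => (hI0 p hp).1.pos
  have hX2 : ((∏ p ∈ I0 X, p : ℕ) : ℝ) ≤ (1 / 100) ^ 2 * N :=
    (tyb_prim (l := l) (by linarith)).trans he2l
  have htr := transfer f hi hn (ν := 1 / 100) (by norm_num) (by norm_num) hX1 hX2
    (I := I0 X) hI0 hP hhp 0
  simp only [zero_mul, add_zero] at htr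
  have hBsq : ∫ x, tybB (I0 X) x ^ 2 ∂P ≤ Real.exp 4 * l ^ 4 := by
    refine (tyb_sq (fun p hp => (hI0 p hp).1) hP).trans ?_
    have h1 : ∑ p ∈ I0 X, 1 / (p : ℝ) ≤ 1 + Real.log l := tyb_harm (l := l) (by linarith)
    calc Real.exp (4 * ∑ p ∈ I0 X, 1 / (p : ℝ)) ≤ Real.exp (4 + 4 * Real.log l) :=
          Real.exp_le_exp.mpr (by linarith)
      _ = Real.exp 4 * l ^ 4 := by
          rw [Real.exp_add]
          congr 1
          have h2 : 4 * Real.log l = ((4 : ℕ) : ℝ) * Real.log l := by push_cast; ring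
          rw [h2, Real.exp_nat_mul, Real.exp_log (by linarith)]
  have h5 : (0 : ℝ) ≤ ∫ x, tybB (I0 X) x ^ 2 ∂P := integral_nonneg fun x => sq_nonneg _
  have h6 : ∑ i, om (f i) * tybB (I0 X) (la (f i)) ^ 2 ≤ 2 * (Real.exp 4 * l ^ 4) := by
    refine htr.trans ?_
    have h7 : ∫ x, tybB (I0 X) x ^ 2 ∂P + 0 ^ 2 ≤ Real.exp 4 * l ^ 4 := by
      rw [zero_pow two_ne_zero, add_zero]; exact hBsq
    exact mul_le_mul tyb_exp h7 (by positivity) (by norm_num)
  have hom : ∀ i, 0 ≤ om (f i) := fun i => tyb_om (hn i)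
  -- first exceptional set
  set s₁ : Finset ι := Finset.univ.filter
    (fun i => Real.exp (ε / 2 * u) < |tybB (I0 X) (la (f i))|) with hs₁
  set s₂ : Finset ι := Finset.univ.filter (fun i => T * u < |PB (IN X) (la (f i))|) with hs₂
  have hm1 : ∑ i ∈ s₁, om (f i) ≤ ε / 2 := by
    have h7 := HAR_cheb (fun i => om (f i)) (fun i => tybB (I0 X) (la (f i)) ^ 2)
      hom (fun i => sq_nonneg _) (t := Real.exp (ε * u)) (Real.exp_pos _) h6 s₁ (by
        intro i hi'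
        have h8 := (Finset.mem_filter.1 hi').2
        have h9 : Real.exp (ε * u) = Real.exp (ε / 2 * u) ^ 2 := by
          rw [← Real.exp_nat_mul]
          congr 1
          push_cast
          ring
        show Real.exp (ε * u) ≤ tybB (I0 X) (la (f i)) ^ 2
        rw [h9, ← sq_abs (tybB (I0 X) (la (f i)))]
        exact pow_le_pow_left₀ (Real.exp_pos _).le h8.le 2)
    refine h7.trans ?_
    rw [div_le_iff₀ (Real.exp_pos _)]
    calc 2 * (Real.exp 4 * l ^ 4) = 2 * Real.exp 4 * l ^ 4 := by ring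
      _ ≤ _ := hL4
  have hm2 : ∑ i ∈ s₂, om (f i) ≤ ε / 2 := by
    have hIN : ∀ p ∈ IN X, 1 ≤ p ∧ (p : ℝ) ≤ (N : ℝ) ^ (1 / 2 : ℝ) := by
      intro p hp
      unfold IN at hp
      rw [Finset.mem_filter, Finset.mem_Icc] at hp
      refine ⟨hp.1.1, ?_⟩
      have hz0 : 0 ≤ zN X := (Real.exp_pos _).le
      have h1 : (p : ℝ) ≤ zN X := (Nat.le_floor_iff hz0).mp hp.1.2
      refine h1.trans ?_
      have h2 : zN X ≤ (X : ℝ) ^ (1 / 4 : ℝ) := by
        unfold zN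
        rw [Real.rpow_def_of_pos hX0]
        apply Real.exp_le_exp.mpr
        rw [div_le_iff₀ (by positivity)]
        have h2 : (16 : ℝ) ≤ Real.log (Real.log (X : ℝ)) ^ 2 := by
          rw [← hl]; nlinarith
        nlinarith
      have h3 : (X : ℝ) ^ (1 / 4 : ℝ) ≤ (N : ℝ) ^ (1 / 2 : ℝ) := by
        have h4 : (N : ℝ) ^ (1 / 2 : ℝ) = ((N : ℝ) ^ 2) ^ (1 / 4 : ℝ) := by
          rw [← Real.rpow_natCast, ← Real.rpow_mul hN0.le]
          norm_num
        rw [h4]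
        apply Real.rpow_le_rpow hX0.le _ (by norm_num)
        nlinarith
      exact h2.trans h3
    have hN16 : 16 ≤ N := by
      have : (16 : ℝ) ≤ N := by linarith
      exact_mod_cast this
    have h7 := tyb_block hN16 f hi hn hIN
    have h8 : ∑ i, om (f i) * PB (IN X) (la (f i)) ^ 2 ≤ E * l := by
      refine h7.trans ?_
      exact mul_le_mul_of_nonneg_left hHB hE0.le
    have h9 := HAR_cheb (fun i => om (f i)) (fun i => PB (IN X) (la (f i)) ^ 2)
      hom (fun i => sq_nonneg _) (t := (T * u) ^ 2) (by positivity) h8 s₂ (by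
        intro i hi'
        have h10 := (Finset.mem_filter.1 hi').2
        show (T * u) ^ 2 ≤ PB (IN X) (la (f i)) ^ 2
        rw [← sq_abs (PB (IN X) (la (f i)))]
        exact pow_le_pow_left₀ (by positivity) h10.le 2)
    refine h9.trans ?_
    rw [div_le_iff₀ (by positivity), mul_pow, hT2, ← hlu]
    have h11 : ε / 2 * (2 * E / ε * l) = E * l := by field_simp
    rw [h11]
  have hsub : t ⊆ s₁ ∪ s₂ := by
    intro i hi'
    by_contra hcon
    rw [Finset.mem_union, not_or] at hcon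
    obtain ⟨c1, c2⟩ := hcon
    rw [hs₁, Finset.mem_filter] at c1
    rw [hs₂, Finset.mem_filter] at c2
    have c1' : |tybB (I0 X) (la (f i))| ≤ Real.exp (ε / 2 * u) := by
      by_contra h
      push Not at h
      exact c1 ⟨Finset.mem_univ _, h⟩
    have c2' : |PB (IN X) (la (f i))| ≤ T * u := by
      by_contra h
      push Not at h
      exact c2 ⟨Finset.mem_univ _, h⟩
    have hK : l ≤ ((A₁ * ⌈Real.log (Real.log X)⌉₊ : ℕ) : ℝ) := by
      have h1 : l ≤ (⌈Real.log (Real.log (X : ℝ))⌉₊ : ℝ) := Nat.le_ceil _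
      have h2 : (1 : ℝ) ≤ A₁ := by exact_mod_cast hA
      push_cast
      nlinarith
    have h2e : 2 ≤ Real.exp (ε / 2 * u) := by
      simpa using hL0
    have hdet := tyb_det (ε := ε) (by linarith : 0 ≤ u) hlu hK huT h2e hHB c2' c1'
    have hlt := ht i hi'
    have hBz : Bz A₁ X (la (f i)) = tybB (I0 X) (la (f i)) *
        (Real.exp (HB (IN X) / 2) * ex (A₁ * ⌈Real.log (Real.log X)⌉₊) (-PB (IN X) (la (f i)))) := rfl
    rw [hBz] at hlt
    have h12 : Real.exp (-PB (IN X) (la (f i)) + l / 2 + ε * u) ≤ Real.log X ^ a := by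
      rw [Real.rpow_def_of_pos hlogX, ← hl]
      apply Real.exp_le_exp.mpr
      have h13 := (abs_le.mp c2').1
      linarith
    exact absurd (hdet.trans h12) (not_le.mpr hlt)
  calc ∑ i ∈ t, om (f i) ≤ ∑ i ∈ s₁ ∪ s₂, om (f i) :=
        Finset.sum_le_sum_of_subset_of_nonneg hsub fun i _ _ => hom i
    _ ≤ ∑ i ∈ s₁, om (f i) + ∑ i ∈ s₂, om (f i) := by
        have := Finset.sum_union_inter (s₁ := s₁) (s₂ := s₂) (f := fun i => om (f i))
        have h0 : 0 ≤ ∑ i ∈ s₁ ∩ s₂, om (f i) := Finset.sum_nonneg fun i _ => hom i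
        linarith
    _ ≤ ε := by linarith

end Pool.Agent.LSP
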