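import Pool.Agent.Lib_helper19.LSP.SPP
import Pool.Agent.Lib_helper41.LVBF.STE
import Pool.Agent.Lib_helper41.LSP.Defs

/-! The small factor of the mollifier for a fixed polynomial: the form used in part F
(proof by helper19). -/

namespace Pool.Agent.LSP

open Pool.Agent.LEV Pool.Agent.LVB Pool.Agent.KSL
open Pool.Agent.FG61 (mu phi cc ff AA Lam)
open Complex MeasureTheory Filter Topology UpperHalfPlane ModularGroup ProbabilityTheory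
open scoped MatrixGroups Modular ENNReal ModularForm ComplexConjugate ContDiff

theorem sp_multR : ∃ A₁ C₀ C₁ : ℕ, 1 ≤ A₁ ∧ ∀ (m₀ : ℕ) (s : ℕ → ℝ), (∀ m, s m ≠ 0 → 1 ≤ m ∧ m ≤ m₀) →
    ∀ ε₂ ε : ℝ, 0 < ε₂ → 0 < ε → ∃ X₀ : ℕ, ∀ X : ℕ, X₀ ≤ X → ∃ a : ℕ → ℝ,
      Sht (zz X) (KA ε₂ X) a ∧
      (∀ x, ∑ k ∈ Finset.Icc 1 (KA ε₂ X), a k * Um k x =
        Bz A₁ X x * ∑ m ∈ Finset.Icc 1 m₀, s m * Um m x) ∧
      cd (zz X) (KA ε₂ X) a s ≤ ε ∧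
      Real.sqrt (cn (zz X) (KA ε₂ X) a) ≤
        Real.sqrt (∑ m ∈ Finset.Icc 1 m₀, s m ^ 2) + Real.sqrt ε ∧
      ∀ k : ℕ, |a k| * Real.sqrt k ≤ Real.log X ^ C₀ * tau k ^ C₁ := by
  classical
  obtain ⟨A₁, hA₁, hA⟩ := sp_multP
  refine ⟨A₁, 10, 0, hA₁, fun m₀ s hs ε₂ ε hε₂ hε => ?_⟩
  set Bd : ℝ := ∑ m ∈ Finset.Icc 1 m₀, |s m| * ∏ p ∈ m.primeFactors, ((m.factorization p : ℝ) + 1)
    with hBd
  have hBd0 : 0 ≤ Bd := Finset.sum_nonneg (fun m _ => mul_nonneg (abs_nonneg _)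
      (Finset.prod_nonneg (fun p _ => by positivity)))
  obtain ⟨N₁, hN₁⟩ := hA ε₂ ε (Bd ^ 4) hε₂ hε m₀
  obtain ⟨N₂, hN₂⟩ := iz_split
  obtain ⟨N₃, hN₃⟩ := spp_size 0 0 m₀ hε₂
  refine ⟨max N₁ (max N₂ N₃), fun N hN => ?_⟩
  simp only [max_le_iff] at hN
  obtain ⟨hn1, hn2, hn3⟩ := hN
  obtain ⟨hz, hdis, hpr', hsm, -⟩ := hN₂ N hn2
  obtain ⟨h3, hm₀, -, -, -, hKA⟩ := hN₃ N hn3
  have hpr : ∀ p ∈ IZ N, p.Prime := fun p hp => (hpr' p hp).1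
  obtain ⟨P, hP⟩ := st_exists (IZ N) hpr
  have := hP.prob
  have hKA' : m₀ ≤ KA ε₂ N := by
    refine hKA.trans ?_
    unfold KA
    apply Nat.floor_mono
    exact Real.rpow_le_rpow_of_exponent_le (by linarith) (by linarith)
  have hS : ∀ x, ∑ m ∈ Finset.Icc 1 (KA ε₂ N), s m * Um m x =
      ∑ m ∈ Finset.Icc 1 m₀, s m * Um m x := by
    intro x
    symm
    apply Finset.sum_subset (Finset.Icc_subset_Icc le_rfl hKA')
    intro m _ hm2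
    have : s m = 0 := by
      by_contra h
      exact hm2 (Finset.mem_Icc.mpr ⟨(hs m h).1, (hs m h).2⟩)
    rw [this, zero_mul]
  have hS2 : ∑ m ∈ Finset.Icc 1 (KA ε₂ N), s m ^ 2 = ∑ m ∈ Finset.Icc 1 m₀, s m ^ 2 := by
    symm
    apply Finset.sum_subset (Finset.Icc_subset_Icc le_rfl hKA')
    intro m _ hm2
    have : s m = 0 := by
      by_contra h
      exact hm2 (Finset.mem_Icc.mpr ⟨(hs m h).1, (hs m h).2⟩)
    rw [this]; simp
  have hlog0 : 0 ≤ Real.log (N : ℝ) := Real.log_nonneg (by linarith)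
  have hsI : ∀ m, s m ≠ 0 → m.primeFactors ⊆ IZ N := by
    intro m hm p hp
    obtain ⟨h1, h2⟩ := hs m hm
    have hp1 := Nat.mem_primeFactors.mp hp
    have hp2 : p ≤ m₀ := (Nat.le_of_dvd (by omega) hp1.2.1).trans h2
    rw [hz]
    apply Finset.mem_union_left
    rw [I0, Finset.mem_filter, Finset.mem_Icc]
    exact ⟨⟨hp1.1.one_lt.le, Nat.le_floor (le_trans (by exact_mod_cast hp2) hm₀)⟩, hp1.1⟩
  have h4 : ∫ x, (∑ m ∈ Finset.Icc 1 (KA ε₂ N), s m * Um m x) ^ 4 ∂P ≤ Bd ^ 4 := by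
    simp only [hS]
    have h5 : ∀ᵐ x ∂P, (∑ m ∈ Finset.Icc 1 m₀, s m * Um m x) ^ 4 ≤ Bd ^ 4 := by
      filter_upwards [hP.bdd] with x hx
      rw [← Even.pow_abs (by decide : Even 4)]
      apply pow_le_pow_left₀ (abs_nonneg _)
      refine (Finset.abs_sum_le_sum_abs _ _).trans (Finset.sum_le_sum (fun m _ => ?_))
      rw [abs_mul]
      by_cases h : s m = 0
      · rw [h]; simp
      · exact mul_le_mul_of_nonneg_left (spm_um_bd (hsI m h) hx) (abs_nonneg _)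
    calc _ ≤ ∫ _x, Bd ^ 4 ∂P := integral_mono_of_nonneg
          (Eventually.of_forall fun x => by positivity) (integrable_const _) h5
      _ = Bd ^ 4 := by simp
  obtain ⟨a, ha, hax, hcd, hcn, hpt⟩ := hN₁ N hn1 s hs P hP h4
  refine ⟨a, ha, fun x => ?_, hcd, ?_, fun k => ?_⟩
  · rw [hax x, hS]
  · rw [hS2] at hcn; exact hcn
  · rw [pow_zero, mul_one]; exact hpt k

end Pool.Agent.LSP
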