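import Pool.Agent.Lib_helper98.GA.Defs
import Pool.Agent.Lib_helper41.LSPG.GFI
import Pool.Agent.Lib_helper71.LSPM.MAIN
import Pool.Agent.Lib_helper71.LSPM.SPL2
import Pool.Agent.Lib_helper71.LSPM.KEXL
import Pool.Agent.Lib_helper53.LSPAF.Adm
import Pool.Agent.Lib_helper68.LSPF.CR
import Pool.Agent.Lib_helper68.LSPF.TB
import Pool.Agent.Lib_helper68.LSPF.SPR

/-! LSP, part F: the harmonic average in clean ranges. -/

namespace Pool.Agent.LSP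

open Pool.Agent.LEV Pool.Agent.LVB Pool.Agent.KSL
open Pool.Agent.FG61 (mu phi cc ff AA Lam)
open Complex MeasureTheory Filter Topology UpperHalfPlane ModularGroup ProbabilityTheory
open scoped MatrixGroups Modular ENNReal ModularForm ComplexConjugate ContDiff

/-- the constant of the second moment -/
theorem gl_b {κ e Ig q : ℝ} (hκ : 0 < κ) (hq : q = (1 + 2 * κ) / (2 + 2 * κ))
    (hI : Ig ≤ 1 / Real.pi + e / (5 * Real.pi)) :
    2 * Real.pi * (Ig * (5 / 2) - 1 / Real.pi * (3 / 2 - 1 / (1 + 2 * κ))) ≤ 2 / q + e := by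
  have hpi := Real.pi_pos
  have h1 : 2 / q = 2 + 2 / (1 + 2 * κ) := by
    rw [hq]
    field_simp
    ring
  have h2 : 2 * Real.pi * (Ig * (5 / 2) - 1 / Real.pi * (3 / 2 - 1 / (1 + 2 * κ))) =
      5 * Real.pi * Ig - 3 + 2 / (1 + 2 * κ) := by
    field_simp
    ring
  have h3 : 5 * Real.pi * Ig ≤ 5 * Real.pi * (1 / Real.pi + e / (5 * Real.pi)) :=
    mul_le_mul_of_nonneg_left hI (by positivity)
  have h4 : 5 * Real.pi * (1 / Real.pi + e / (5 * Real.pi)) = 5 + e := by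
    field_simp
  rw [h1, h2]
  linarith

/-- the error term -/
theorem gl_err {m₀ : ℕ} {s W : ℕ → ℝ} {v τ r Cg : ℝ} (hτ : 0 ≤ τ) (hr : 0 ≤ r) (hC : 0 ≤ Cg)
    (hv : v ≤ 1) (hW : ∀ m, s m ≠ 0 → |W m| ≤ Real.sqrt m * (|s m| + v))
    (hsm : Cg * r * (τ * ∑ m ∈ Finset.Icc 1 m₀, |s m| * ((|s m| + 1) * m) +
        τ ^ 2 * ∑ m ∈ Finset.Icc 1 m₀, s m ^ 2 * m) ≤ 1) :
    Cg * r * (|-τ| * ∑ m ∈ Finset.Icc 1 m₀, |s m| * |W m| * Real.sqrt m +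
      (-τ) ^ 2 * ∑ m ∈ Finset.Icc 1 m₀, s m ^ 2 * m) ≤ 1 := by
  refine le_trans (mul_le_mul_of_nonneg_left ?_ (mul_nonneg hC hr)) hsm
  rw [abs_neg, abs_of_nonneg hτ, neg_sq]
  have h1 : ∑ m ∈ Finset.Icc 1 m₀, |s m| * |W m| * Real.sqrt m ≤
      ∑ m ∈ Finset.Icc 1 m₀, |s m| * ((|s m| + 1) * m) := by
    refine Finset.sum_le_sum fun m _ => ?_
    by_cases h : s m = 0
    · rw [h]; simp
    · have h2 : Real.sqrt m * Real.sqrt m = m := Real.mul_self_sqrt (Nat.cast_nonneg m)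
      calc |s m| * |W m| * Real.sqrt m ≤ |s m| * (Real.sqrt m * (|s m| + v)) * Real.sqrt m := by
            gcongr
            exact hW m h
        _ = |s m| * ((|s m| + v) * (Real.sqrt m * Real.sqrt m)) := by ring
        _ ≤ |s m| * ((|s m| + 1) * (Real.sqrt m * Real.sqrt m)) := by gcongr
        _ = _ := by rw [h2]
  gcongr

/-- the threshold -/
theorem gl_thr {κ' L lX lN D a₁ a₂ : ℝ} (hD : 0 ≤ D) (hκ : 0 < κ') (hX : 1 ≤ lX)
    (hN : lX ≤ 2 * lN) (hbig : 2 ^ D / κ' ≤ lX ^ (D - a₁ - a₂)) (hL : 0 ≤ L)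
    (h : κ' ≤ L * lX ^ a₁ * lX ^ a₂) : 1 / lN ^ D ≤ L := by
  have hlN : 0 < lN := by linarith
  have hlX : 0 < lX := by linarith
  have h2 : lX ^ D ≤ 2 ^ D * lN ^ D := by
    rw [← Real.mul_rpow (by norm_num) hlN.le]
    exact Real.rpow_le_rpow hlX.le hN hD
  rw [div_le_iff₀ hκ] at hbig
  rw [div_le_iff₀ (by positivity)]
  have h3 : (0 : ℝ) < 2 ^ D := by positivity
  have h4 : 2 ^ D ≤ L * lX ^ D := by
    calc (2 : ℝ) ^ D ≤ lX ^ (D - a₁ - a₂) * κ' := hbig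
      _ ≤ lX ^ (D - a₁ - a₂) * (L * lX ^ a₁ * lX ^ a₂) := by gcongr
      _ = L * (lX ^ (D - a₁ - a₂) * lX ^ a₁ * lX ^ a₂) := by ring
      _ = L * lX ^ D := by
        rw [← Real.rpow_add hlX, ← Real.rpow_add hlX]
        congr 2
        ring
  have h5 : L * lX ^ D ≤ L * (2 ^ D * lN ^ D) := mul_le_mul_of_nonneg_left h2 hL
  have h6 : 2 ^ D * 1 ≤ 2 ^ D * (L * lN ^ D) := by
    calc (2 : ℝ) ^ D * 1 = 2 ^ D := mul_one _
      _ ≤ L * (2 ^ D * lN ^ D) := h4.trans h5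
      _ = _ := by ring
  exact le_of_mul_le_mul_left h6 h3

/-- the length of the mollifier -/
theorem gl_len {κ : ℝ} (h0 : 0 < κ) (h1 : κ < 1 / 1000) {c : ℝ} (hc : 0 < c) : ∃ X₀ : ℕ,
    ∀ X : ℕ, X₀ ≤ X → ∀ E N : ℕ, (E : ℝ) ≤ (X : ℝ) ^ (1 / 2 + 101 / 100 * κ) → X ≤ 2 * N →
      (E : ℝ) ≤ c * N := by
  obtain ⟨X₀, hX₀⟩ := fia_grow (a := 1 / 2 + 101 / 100 * κ) (c := c / 2) (by linarith) (by positivity)
  refine ⟨X₀, fun X hX E N hE hN => ?_⟩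
  have h2 := hX₀ X hX
  have h3 : (X : ℝ) ≤ 2 * N := by exact_mod_cast hN
  calc (E : ℝ) ≤ c / 2 * X := hE.trans h2
    _ ≤ c / 2 * (2 * N) := by gcongr
    _ = c * N := by ring

end Pool.Agent.LSP
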