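import Pool.Agent.Lib_helper68.LSPF.GLN
import Pool.Agent.Lib_helper98.LSPC.Count

/-! LSP, part F: many good levels. -/

namespace Pool.Agent.LSP

open Pool.Agent.LEV Pool.Agent.LVB Pool.Agent.KSL
open Pool.Agent.FG61 (mu phi cc ff AA Lam)
open Complex MeasureTheory Filter Topology UpperHalfPlane ModularGroup ProbabilityTheory
open scoped MatrixGroups Modular ENNReal ModularForm ComplexConjugate ContDiff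

/-- **part F2, dense form**: in clean ranges a positive proportion of the prime levels have more
than half of the central values large -/
theorem dense_level_sharp {c₁ : ℝ} (h1 : 0 < c₁) : ∃ κ c₂ : ℝ, 0 < κ ∧ κ < 1 / 1000 ∧ 0 < c₂ ∧
    ∀ D : ℝ, 1 / 2 < D → ∃ X₀ : ℕ, ∀ X : ℕ, X₀ ≤ X → GA.Good c₁ ⌊(X : ℝ) ^ (124 * κ)⌋₊ →
      c₂ * (X / Real.log X) ≤
        (({N : ℕ | X ≤ 2 * N ∧ N ≤ 4 * X ∧ ∃ (_ : Fact N.Prime),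
          (1 / 2 + κ / (4 + 4 * κ)) * (N / 24) ≤
          ({f : S2 N | (IsNew f ∧ co f N = 1) ∧ 1 / Real.log N ^ D ≤ ‖Lh f‖}.ncard : ℝ)}.ncard :
          ℕ) : ℝ) := by
  classical
  obtain ⟨κ₀, hκ₀, har⟩ := arith_count h1
  obtain ⟨κ, hκ0, hκκ, hκ1⟩ : ∃ κ : ℝ, 0 < κ ∧ κ ≤ κ₀ ∧ κ < 1 / 1000 :=
    ⟨min κ₀ (1 / 2000), lt_min hκ₀ (by norm_num), min_le_left _ _,
      (min_le_right _ _).trans_lt (by norm_num)⟩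
  obtain ⟨C₀, C₁, hlev⟩ := level_main
  obtain ⟨Ba, hadm⟩ := adm_x C₀ C₁
  obtain ⟨T, ρ, B₀, δ, ε₀, Λ, hρ, hB₀, hδ, hε₀, hΛ, hlv⟩ := hlev κ hκ0 hκ1
  obtain ⟨B', har'⟩ := har κ hκ0 hκκ hρ hB₀ Ba
  obtain ⟨c₂, hc₂, X₂, hX₂⟩ := har' δ Λ hδ hΛ
  refine ⟨κ, c₂, hκ0, hκ1, hc₂, fun D hD => ?_⟩
  obtain ⟨ε₂, hε₂0, hε₂1, hε₂κ⟩ : ∃ ε₂ : ℝ, 0 < ε₂ ∧ ε₂ ≤ ε₀ ∧ ε₂ ≤ κ / 100000 :=
    ⟨min ε₀ (κ / 100000), lt_min hε₀ (by positivity), min_le_left _ _, min_le_right _ _⟩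
  obtain ⟨X₁, hX₁⟩ := hlv D hD ε₂ hε₂0 hε₂1
  obtain ⟨X₃, hX₃⟩ := hadm B' κ hκ0 hκ1.le ε₂ hε₂0 hε₂κ
  refine ⟨X₁ + X₂ + X₃, fun X hX hgood => ?_⟩
  obtain ⟨hE1, a, ha, hpt, hN⟩ := hX₁ X (by omega)
  refine (hX₂ X (by omega) hgood _ _ hE1 (hX₃ X (by omega) a ha hpt)
    (fun N hNp hXN hNX => ?_)).trans ?_
  · have : Fact N.Prime := ⟨hNp⟩
    exact (hN N hXN hNX).1
  · norm_cast
    rw [← Set.ncard_coe_finset]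
    apply Set.ncard_le_ncard
    · intro N hN'
      rw [Finset.mem_coe, Finset.mem_filter, Finset.mem_Icc] at hN'
      obtain ⟨⟨-, hNX⟩, hNp, hXN, hOD⟩ := hN'
      have : Fact N.Prime := ⟨hNp⟩
      exact ⟨hXN, hNX, ⟨hNp⟩, (hN N hXN hNX).2 hOD⟩
    · exact (Set.finite_Iic (4 * X)).subset fun N hN => hN.2.1

end Pool.Agent.LSP
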