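import Pool.Agent.Lib_helper68.LSPF.GLM

/-! LSP, part F: good levels. -/

namespace Pool.Agent.LSP

open Pool.Agent.LEV Pool.Agent.LVB Pool.Agent.KSL
open Pool.Agent.FG61 (mu phi cc ff AA Lam)
open Complex MeasureTheory Filter Topology UpperHalfPlane ModularGroup ProbabilityTheory
open scoped MatrixGroups Modular ENNReal ModularForm ComplexConjugate ContDiff

/-- **part F1**: at every prime level `N` of size `X` with a small off-diagonal more than half of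
the central values are large -/
theorem level_main : ∃ C₀ C₁ : ℕ, ∀ κ : ℝ, 0 < κ → κ < 1 / 1000 →
    ∃ (T : ℝ) (ρ : ℝ → ℝ) (B₀ : ℕ) (δ ε₀ Λ : ℝ), KerL T ρ ∧ 1 + T ^ 2 ≤ (B₀ : ℝ) ∧ 0 < δ ∧
    0 < ε₀ ∧ 0 ≤ Λ ∧ ∀ D : ℝ, 1 / 2 < D →
    ∀ ε₂ : ℝ, 0 < ε₂ → ε₂ ≤ ε₀ → ∃ X₀ : ℕ, ∀ X : ℕ, X₀ ≤ X →
      1 ≤ QA (MM (-κ) X) 2 (KA ε₂ X) ∧ ∃ a : ℕ → ℝ,
      Sht (zz X) (KA ε₂ X) a ∧ (∀ k : ℕ, |a k| * Real.sqrt k ≤ Real.log X ^ C₀ * tau k ^ C₁) ∧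
      ∀ (N : ℕ) [Fact N.Prime], X ≤ 2 * N → N ≤ 4 * X →
        -Λ ≤ OD ρ B₀ (QA (MM (-κ) X) 2 (KA ε₂ X)) (xX (zz X) (MM (-κ) X) 2 a) N ∧
        (OD ρ B₀ (QA (MM (-κ) X) 2 (KA ε₂ X)) (xX (zz X) (MM (-κ) X) 2 a) N ≤ δ →
        (1 / 2 + κ / (4 + 4 * κ)) * (N / 24) ≤
          ({f : S2 N | (IsNew f ∧ co f N = 1) ∧ 1 / Real.log N ^ D ≤ ‖Lh f‖}.ncard : ℝ)) := by
  obtain ⟨C₀, C₁, hgl⟩ := gl_level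
  refine ⟨C₀, C₁, fun κ hκ0 hκ1 => ?_⟩
  obtain ⟨q, hq⟩ : ∃ q : ℝ, q = (1 + 2 * κ) / (2 + 2 * κ) := ⟨_, rfl⟩
  obtain ⟨c, hc⟩ : ∃ c : ℝ, c = κ / (4 + 4 * κ) := ⟨_, rfl⟩
  rw [← hc]
  have hc0 : 0 < c := by rw [hc]; positivity
  have hqc : q - c = 1 / 2 + c := by
    rw [hq, hc]
    field_simp
    ring
  have hq0 : 0 ≤ q := by rw [hq]; positivity
  have hq1 : q ≤ 1 := by
    rw [hq, div_le_one (by linarith)]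
    linarith
  obtain ⟨A, w, ε₁, N₀, hA, hw, hε₁, hnat⟩ := nat_gen hq0 hq1 hc0
  obtain ⟨T, ρ, B₀, δ, ε₀, Λ, hρ, hB₀, hδ, hε₀, hΛ, h⟩ := hgl κ hκ0 hκ1 A w hA hw ε₁ hε₁
  rw [← hq] at h
  refine ⟨T, ρ, B₀, δ, ε₀, Λ, hρ, hB₀, hδ, hε₀, hΛ, fun D hD ε₂ h2 h3 => ?_⟩
  obtain ⟨X₀, hX₀⟩ := h D hD ε₂ h2 h3
  refine ⟨X₀ + 2 * N₀, fun X hX => ?_⟩
  obtain ⟨hE1, a, ha, hpt, hN⟩ := hX₀ X (by omega)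
  refine ⟨hE1, a, ha, hpt, fun N _ hXN hNX => ⟨(hN N hXN hNX).1, fun hOD => ?_⟩⟩
  have h4 := hnat N (by omega) (fun f => 1 / Real.log N ^ D ≤ ‖Lh f‖) ((hN N hXN hNX).2 hOD)
  rw [hqc] at h4
  calc (1 / 2 + c) * ((N : ℝ) / 24) = (N : ℝ) / 24 * (1 / 2 + c) := by ring
    _ ≤ _ := h4

end Pool.Agent.LSP
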