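import Pool.Agent.Lib_helper68.LSPF.HM

/-! LSP, part F: the fixed polynomial. -/

namespace Pool.Agent.LSP

open Pool.Agent.LEV Pool.Agent.LVB Pool.Agent.KSL
open Pool.Agent.FG61 (mu phi cc ff AA Lam)
open Complex MeasureTheory Filter Topology UpperHalfPlane ModularGroup ProbabilityTheory
open scoped MatrixGroups Modular ENNReal ModularForm ComplexConjugate ContDiff

theorem hp_sub {I : Finset ℕ} {X : ℕ} {G H : (ℕ → ℝ) → ℝ} (hG : HPoly I X G) (hH : HPoly I X H) :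
    HPoly I X (fun x => G x - H x) := by
  obtain ⟨c, hc, hG⟩ := hG
  obtain ⟨d, hd, hH⟩ := hH
  refine ⟨fun m => c m - d m, fun m hm => ?_, fun x => ?_⟩
  · by_cases h : c m = 0
    · have : d m ≠ 0 := fun h' => hm (by simp [h, h'])
      exact hd m this
    · exact hc m h
  · simp only []
    rw [hG x, hH x, ← Finset.sum_sub_distrib]
    exact Finset.sum_congr rfl fun m _ => by ring

theorem hp_Hd {I : Finset ℕ} {A : Finset ℕ} (c : ℕ → ℝ) (hA : ∀ a ∈ A, 1 ≤ a)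
    (hAI : ∀ a ∈ A, a.primeFactors ⊆ I) : HPoly I ((A.sup id) ^ 2 + 1) (Hd A c) := by
  have h1 : HPoly I ((A.sup id) ^ 2 + 1) (fun x => ∑ a ∈ A, c a * Um a x ^ 2) := by
    refine hpoly_sum (J := ℕ) A (G := fun a x => c a * Um a x ^ 2) fun a ha => ?_
    apply fid_smul
    have ha1 : 1 ≤ a := hA a ha
    have h2 := hpoly_mul (fun p hp => Nat.prime_of_mem_primeFactors hp)
      (fun p hp => Nat.prime_of_mem_primeFactors hp) (fid_um ha1) (fid_um ha1)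
    have h3 : (fun x => Um a x ^ 2) = fun x => Um a x * Um a x := by
      funext x
      ring
    rw [h3]
    refine fid_mono ?_ ?_ h2
    · rw [Finset.union_self]
      exact hAI a ha
    · have h4 : a ≤ A.sup id := Finset.le_sup (f := id) ha
      nlinarith
  exact h1

theorem hp_jensen {I : Finset ℕ} {P : Measure (ℕ → ℝ)} (hP : IsST I P) {X : ℕ}
    {G : (ℕ → ℝ) → ℝ} (hG : HPoly I X G) : (∫ x, G x ∂P) ^ 2 ≤ ∫ x, G x ^ 2 ∂P := by
  have := hP.prob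
  have i1 : Integrable G P := by simpa using fid_intk hP hG 1
  have i2 := fid_intk hP hG 2
  have h1 : 0 ≤ ∫ x, (G x - ∫ y, G y ∂P) ^ 2 ∂P := integral_nonneg fun x => sq_nonneg _
  set q : ℝ := ∫ y, G y ∂P with hq
  have e1 : ∀ x, (G x - q) ^ 2 = G x ^ 2 + (-2 * q) * G x + q ^ 2 * 1 := by
    intro x
    ring
  simp only [e1] at h1
  rw [fid_three i2 i1 (integrable_const 1) (-2 * q) (q ^ 2), integral_const,
    smul_eq_mul, probReal_univ, ← hq] at h1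
  nlinarith

theorem hp_mass {N : ℕ} [Fact N.Prime] (hN : (10000 : ℝ) ≤ N) {ι : Type} [Fintype ι] (f : ι → S2 N)
    (hi : Function.Injective f) (hn : ∀ i, IsNew (f i)) : ∑ i, om (f i) ≤ 2 := by
  obtain ⟨P, hP⟩ := st_exists (∅ : Finset ℕ) (fun p hp => absurd hp (Finset.notMem_empty p))
  have h := transfer f hi hn (ν := 1 / 100) (by norm_num) (by norm_num) (X := 1) le_rfl (by
      push_cast
      linarith) (I := ∅) (fun p hp => absurd hp (Finset.notMem_empty p)) hP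
    (G := fun _ => 0) ⟨fun _ => 0, fun m hm => absurd rfl hm, fun x => by simp⟩ 1
  have h4 : ∑ i, om (f i) * ((0 : ℝ) + 1 * se (f i)) ^ 2 = ∑ i, om (f i) := by
    refine Finset.sum_congr rfl fun i _ => ?_
    have := fid_se (hn i)
    linear_combination om (f i) * this
  simp only [h4] at h
  refine h.trans ?_
  simpa using tym_exp

/-- a fixed polynomial whose square approximates the density -/
theorem poly_data (A : Finset ℕ) (c : ℕ → ℝ) (hA : ∀ a ∈ A, 1 ≤ a) (hc : ∀ a, 0 ≤ c a) {d : ℝ}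
    (hd : 0 < d) : ∃ (I : Finset ℕ) (m₀ : ℕ) (s : ℕ → ℝ), (∀ p ∈ I, p.Prime) ∧ 1 ≤ m₀ ∧
      (∀ m, s m ≠ 0 → 1 ≤ m ∧ m ≤ m₀ ∧ m.primeFactors ⊆ I) ∧
      |∑ m ∈ Finset.Icc 1 m₀, s m ^ 2 - ∑ a ∈ A, c a| ≤ d ∧
      ∃ (C₄ : ℝ) (N₀ : ℕ), 0 ≤ C₄ ∧ ∀ (N : ℕ) [Fact N.Prime], N₀ ≤ N → ∀ {ι : Type} [Fintype ι]
        (f : ι → S2 N), AllNew f →
        ∑ i, om (f i) * |(∑ m ∈ Finset.Icc 1 m₀, s m * Um m (la (f i))) ^ 2 -
          Hd A c (la (f i))| ≤ d ∧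
        ∑ m ∈ Finset.Icc 1 m₀, s m ^ 2 - d ≤
          ∑ i, om (f i) * (∑ m ∈ Finset.Icc 1 m₀, s m * Um m (la (f i))) ^ 2 ∧
        ∑ i, om (f i) * (∑ m ∈ Finset.Icc 1 m₀, s m * Um m (la (f i))) ^ 2 ≤
          2 * ∑ m ∈ Finset.Icc 1 m₀, s m ^ 2 ∧
        ∑ i, om (f i) * ((∑ m ∈ Finset.Icc 1 m₀, s m * Um m (la (f i))) ^ 2) ^ 2 ≤ C₄ := by
  classical
  obtain ⟨r, hr0, hr⟩ : ∃ r : ℝ, 0 < r ∧ 8 * r = d := ⟨d / 8, by positivity, by ring⟩
  obtain ⟨I, m₁, R, hI, hAI, hR, hRint⟩ := root_poly A c hA hc (ε := r ^ 2) (by positivity)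
  obtain ⟨m₀, hm₀, hm₀1⟩ : ∃ m₀ : ℕ, m₁ ≤ m₀ ∧ 1 ≤ m₀ := ⟨m₁ + 1, by omega, by omega⟩
  have hR0 : HPoly I m₀ R := fia_mono hm₀ hR
  obtain ⟨s, hs, hRs⟩ := id hR0
  obtain ⟨P, hP⟩ := st_exists I hI
  have hprob := hP.prob
  have hRP := hRint P hP
  have hHd := hp_Hd (I := I) c hA hAI
  have hR2 : HPoly I (m₀ * m₀) (fun x => R x ^ 2) := by
    have h1 := hpoly_mul hI hI hR0 hR0
    rw [Finset.union_self] at h1
    simpa only [sq] using h1
  obtain ⟨L, hL1, hL2, hL3⟩ : ∃ L : ℕ, m₀ * m₀ ≤ L ∧ (A.sup id) ^ 2 + 1 ≤ L ∧ m₀ ≤ L :=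
    ⟨m₀ * m₀ + ((A.sup id) ^ 2 + 1) + m₀, by omega, by omega, by omega⟩
  have hG : HPoly I L (fun x => R x ^ 2 - Hd A c x) :=
    hp_sub (fia_mono hL1 hR2) (fia_mono hL2 hHd)
  have hRsq : ∫ x, R x ^ 2 ∂P = ∑ m ∈ Finset.Icc 1 m₀, s m ^ 2 := by
    have e1 : R = fun x => ∑ m ∈ Finset.Icc 1 m₀, s m * Um m x := funext hRs
    rw [e1]
    exact st_sq hI hP hs
  have hHint : ∫ x, Hd A c x ∂P = ∑ a ∈ A, c a := HMM_hd_int A c hA hAI hP
  have iR2 : Integrable (fun x => R x ^ 2) P := fid_intk hP hR0 2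
  have iH : Integrable (fun x => Hd A c x) P := by simpa using fid_intk hP hHd 1
  have hdiff : |∑ m ∈ Finset.Icc 1 m₀, s m ^ 2 - ∑ a ∈ A, c a| ≤ r := by
    rw [← hRsq, ← hHint, ← integral_sub iR2 iH]
    have h1 := (hp_jensen hP hG).trans hRP
    exact abs_le_of_sq_le_sq h1 hr0.le
  refine ⟨I, m₀, s, hI, hm₀1, hs, hdiff.trans (by linarith), ?_⟩
  obtain ⟨N₁, hN₁⟩ := harm_mom A c hA 0 (ε := r) hr0
  obtain ⟨N₂, hN₂⟩ := exists_nat_ge (10000 * (L : ℝ))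
  obtain ⟨N₃, hN₃⟩ := iz_split
  refine ⟨2 * ∫ x, (R x ^ 2) ^ 2 ∂P, N₁ + N₂ + N₃ + 10000 + I.sup id + 1,
    mul_nonneg (by norm_num) (integral_nonneg fun x => sq_nonneg _), fun N _ hN ι _ f hf => ?_⟩
  have hi : Function.Injective f := hf.1
  have hn : ∀ i, IsNew (f i) := fun i => (hf.2 (f i)).mpr ⟨i, rfl⟩
  have hN4 : (10000 : ℝ) ≤ N := by
    have : 10000 ≤ N := by omega
    exact_mod_cast this
  have hIN : ∀ p ∈ I, p.Prime ∧ p < N := by
    intro p hp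
    refine ⟨hI p hp, ?_⟩
    have h4 : p ≤ I.sup id := Finset.le_sup (f := id) hp
    omega
  have hLN : (L : ℝ) ≤ (1 / 100) ^ 2 * N := by
    have h1 : (N₂ : ℝ) ≤ N := by
      have : N₂ ≤ N := by omega
      exact_mod_cast this
    linarith
  have hL0 : 1 ≤ L := by omega
  have tr : ∀ G : (ℕ → ℝ) → ℝ, HPoly I L G → ∑ i, om (f i) * G (la (f i)) ^ 2 ≤
      2 * ∫ x, G x ^ 2 ∂P := by
    intro G hG
    have h := transfer f hi hn (ν := 1 / 100) (by norm_num) (by norm_num) hL0 hLN hIN hP hG 0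
    simp only [zero_mul, add_zero] at h
    have h5 : (0 : ℝ) ≤ ∫ x, G x ^ 2 ∂P := integral_nonneg fun x => sq_nonneg _
    refine h.trans ?_
    exact mul_le_mul tym_exp (by linarith) (by linarith) (by norm_num)
  have hSR : ∀ i, ∑ m ∈ Finset.Icc 1 m₀, s m * Um m (la (f i)) = R (la (f i)) :=
    fun i => (hRs _).symm
  simp only [hSR]
  have hom : ∀ i, 0 ≤ om (f i) := fun i => (fid_om (hn i)).2.1.le
  have h1 : ∑ i, om (f i) * |R (la (f i)) ^ 2 - Hd A c (la (f i))| ≤ 2 * r := by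
    have h2 := tr _ hG
    have h3 : ∑ i, om (f i) * |R (la (f i)) ^ 2 - Hd A c (la (f i))| ^ 2 ≤ 2 * r ^ 2 := by
      refine le_trans (le_of_eq ?_) (h2.trans (mul_le_mul_of_nonneg_left hRP (by norm_num)))
      exact Finset.sum_congr rfl fun i _ => by rw [sq_abs]
    have h4 := fid_cs Finset.univ (fun i => om (f i))
      (fun i => |R (la (f i)) ^ 2 - Hd A c (la (f i))|) hom (hp_mass hN4 f hi hn) h3 (by norm_num)
    refine h4.trans (le_of_eq ?_)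
    rw [← Real.sqrt_mul (by norm_num)]
    have : (2 : ℝ) * (2 * r ^ 2) = (2 * r) ^ 2 := by ring
    rw [this, Real.sqrt_sq (by linarith)]
  refine ⟨h1.trans (by linarith), ?_, ?_, ?_⟩
  · obtain ⟨-, -, hIZ, -, -⟩ := hN₃ N (by omega)
    obtain ⟨P', hP'⟩ := st_exists (IN N) (fun p hp => HMM_prime hp)
    have h2 := hN₁ N (by omega) f hf P' hP'
    have hprob' := hP'.prob
    simp only [pow_zero, mul_one, integral_const, probReal_univ, smul_eq_mul] at h2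
    have h3 := (abs_le.mp h2).1
    have h4 : ∑ i, om (f i) * Hd A c (la (f i)) - ∑ i, om (f i) * R (la (f i)) ^ 2 ≤
        ∑ i, om (f i) * |R (la (f i)) ^ 2 - Hd A c (la (f i))| := by
      rw [← Finset.sum_sub_distrib]
      refine Finset.sum_le_sum fun i _ => ?_
      have h5 := mul_le_mul_of_nonneg_left
        (neg_abs_le (R (la (f i)) ^ 2 - Hd A c (la (f i)))) (hom i)
      linarith
    have h5 := (abs_le.mp hdiff).2
    linarith
  · have h2 := tr R (fia_mono hL3 hR0)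
    rw [hRsq] at h2
    exact h2
  · exact tr (fun x => R x ^ 2) (fia_mono hL1 hR2)

end Pool.Agent.LSP
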