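import Pool.Agent.Lib_helper41.LSP.Defs
import Pool.Agent.Lib_helper68.KSLF.BET

/-! LSP, part F: sizes of the parameters. -/

namespace Pool.Agent.LSP

open Pool.Agent.LEV Pool.Agent.LVB Pool.Agent.KSL
open Pool.Agent.FG61 (mu phi cc ff AA Lam)
open Complex MeasureTheory Filter Topology UpperHalfPlane ModularGroup ProbabilityTheory
open scoped MatrixGroups Modular ENNReal ModularForm ComplexConjugate ContDiff

/-- sizes of the parameters -/
theorem sizes_gen {δ : ℝ} (h1 : δ < 1 / 4) {ε : ℝ} (hε : 0 < ε) : ∃ N₀ : ℕ, ∀ N : ℕ,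
    N₀ ≤ N → 3 ≤ N ∧ 2 ≤ zz N ∧ zz N < MM δ N ∧ (zz N : ℝ) ≤ (N : ℝ) ^ ε ∧
      1 / ε ≤ Real.log (zz N) ∧ Real.log N ≤ 2 * Real.log (Real.log N) ^ 2 * Real.log (zz N) ∧
      |Real.log (MM δ N) - (1 / 2 - δ) * Real.log N| ≤ ε ∧ 1 / ε ≤ Real.log (Real.log N) ∧
      Real.log (Real.log N) ≤ ε * Real.log (zz N) := by
  have hL : Tendsto (fun N : ℕ => Real.log N) atTop atTop :=
    Real.tendsto_log_atTop.comp tendsto_natCast_atTop_atTop
  have hl : Tendsto (fun N : ℕ => Real.log (Real.log N)) atTop atTop :=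
    Real.tendsto_log_atTop.comp hL
  set c : ℝ := min (ε / 2) (1 / 2) with hc
  have hc0 : 0 < c := lt_min (by linarith) (by norm_num)
  have hc1 : c ≤ ε / 2 := min_le_left _ _
  have hc2 : c ≤ 1 / 2 := min_le_right _ _
  have hd : ∀ᶠ N : ℕ in atTop, Real.log (Real.log N) ^ 3 ≤ c * Real.log N := by
    have h := (Real.isLittleO_pow_log_id_atTop (n := 3)).comp_tendsto hL
    filter_upwards [h.bound hc0, hL.eventually_ge_atTop 1, hl.eventually_ge_atTop 0]
      with N h2 h3 h4
    simp only [Function.comp, id, Real.norm_eq_abs] at h2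
    rwa [abs_of_nonneg (by positivity), abs_of_nonneg (by linarith)] at h2
  set K : ℝ := -Real.log (1 - Real.exp (-ε)) with hK
  have he1 : Real.exp (-ε) < 1 := by
    rw [Real.exp_lt_one_iff]; linarith
  have key : ∀ᶠ N : ℕ in atTop, 3 ≤ N ∧ 2 ≤ zz N ∧ zz N < MM δ N ∧ (zz N : ℝ) ≤ (N : ℝ) ^ ε ∧
      1 / ε ≤ Real.log (zz N) ∧ Real.log N ≤ 2 * Real.log (Real.log N) ^ 2 * Real.log (zz N) ∧
      |Real.log (MM δ N) - (1 / 2 - δ) * Real.log N| ≤ ε ∧ 1 / ε ≤ Real.log (Real.log N) ∧
      Real.log (Real.log N) ≤ ε * Real.log (zz N) := by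
    filter_upwards [hd, eventually_ge_atTop 3, hL.eventually_ge_atTop (8 * Real.log 2),
      hL.eventually_ge_atTop (4 * K), hl.eventually_ge_atTop 3, hl.eventually_ge_atTop (1 / ε)]
      with N k1 k2 k3 k4 k5 k6
    set L := Real.log (N : ℝ) with hLd
    set l := Real.log L with hld
    have hN0 : (0 : ℝ) < N := by
      have : (3 : ℝ) ≤ N := by exact_mod_cast k2
      linarith
    have hl2 : 0 < l ^ 2 := by positivity
    have hL0 : 0 < L := by
      have := Real.log_pos (show (1 : ℝ) < 2 by norm_num)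
      linarith
    -- the exponent
    have e1 : l ≤ c * (L / l ^ 2) := by
      rw [mul_div_assoc', le_div_iff₀ hl2]
      nlinarith [k1]
    have e0 : 0 < L / l ^ 2 := by positivity
    have e2 : 2 * l ≤ ε * (L / l ^ 2) := by
      have := mul_le_mul_of_nonneg_right hc1 e0.le
      linarith
    have e3 : 2 * l ≤ L / l ^ 2 := by
      have := mul_le_mul_of_nonneg_right hc2 e0.le
      linarith
    have hz : zN N = Real.exp (L / l ^ 2) := rfl
    have hzf : (zz N : ℝ) ≤ Real.exp (L / l ^ 2) := by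
      unfold zz
      rw [← hz]
      exact Nat.floor_le (by rw [hz]; positivity)
    have hln2 : Real.log 2 < 1 := by
      have := Real.log_two_lt_d9
      linarith
    have hz2 : 2 ≤ zz N := by
      unfold zz
      rw [hz]
      apply Nat.le_floor
      push_cast
      calc (2 : ℝ) = Real.exp (Real.log 2) := (Real.exp_log (by norm_num)).symm
        _ ≤ _ := Real.exp_le_exp.2 (by linarith)
    have hz2r : (2 : ℝ) ≤ zz N := by exact_mod_cast hz2
    have hlz : L / l ^ 2 - Real.log 2 ≤ Real.log (zz N) := by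
      have h5 : Real.exp (L / l ^ 2) < zz N + 1 := by
        unfold zz
        rw [← hz]
        exact Nat.lt_floor_add_one _
      have h6 : Real.exp (L / l ^ 2) ≤ 2 * zz N := by linarith
      have h7 := Real.log_le_log (Real.exp_pos _) h6
      rw [Real.log_exp, Real.log_mul (by norm_num) (by positivity)] at h7
      linarith
    have hlz2 : L / l ^ 2 / 2 ≤ Real.log (zz N) := by linarith
    have c1 : (1 : ℝ) / 4 ≤ 1 / 2 - δ := by linarith
    -- MM
    have hMe : (N : ℝ) ^ (1 / 2 - δ) = Real.exp ((1 / 2 - δ) * L) := by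
      rw [Real.rpow_def_of_pos hN0, mul_comm]
    have hMf : (MM δ N : ℝ) ≤ Real.exp ((1 / 2 - δ) * L) := by
      unfold MM
      rw [← hMe]
      exact Nat.floor_le (by positivity)
    have hMg : Real.exp ((1 / 2 - δ) * L) - 1 < MM δ N := by
      have := Nat.lt_floor_add_one ((N : ℝ) ^ (1 / 2 - δ))
      unfold MM
      rw [← hMe]
      linarith
    have hzM : (zz N : ℝ) < MM δ N := by
      have h5 : Real.exp (L / l ^ 2) ≤ Real.exp (L / 8) := by
        apply Real.exp_le_exp.2
        apply div_le_div_of_nonneg_left hL0.le (by norm_num)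
        nlinarith
      have h6 : (2 : ℝ) ≤ Real.exp (L / 8) := by
        calc (2 : ℝ) = Real.exp (Real.log 2) := (Real.exp_log (by norm_num)).symm
          _ ≤ _ := Real.exp_le_exp.2 (by linarith)
      have h7 : Real.exp (L / 8) * Real.exp (L / 8) ≤ Real.exp ((1 / 2 - δ) * L) := by
        rw [← Real.exp_add]
        apply Real.exp_le_exp.2
        nlinarith
      nlinarith
    have hMpos : (0 : ℝ) < MM δ N := by linarith
    refine ⟨k2, hz2, by exact_mod_cast hzM, ?_, ?_, ?_, ?_, k6, ?_⟩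
    · refine hzf.trans ?_
      rw [Real.rpow_def_of_pos hN0]
      apply Real.exp_le_exp.2
      rw [div_le_iff₀ hl2]
      have h5 : 1 / ε ≤ l ^ 2 := by
        have : l * 1 ≤ l * l := mul_le_mul_of_nonneg_left (by linarith) (by linarith)
        calc 1 / ε ≤ l := k6
          _ ≤ l ^ 2 := by rw [sq]; linarith
      rw [div_le_iff₀ hε] at h5
      have h6 := mul_le_mul_of_nonneg_left h5 hL0.le
      calc L = L * 1 := (mul_one _).symm
        _ ≤ L * (l ^ 2 * ε) := h6
        _ = _ := by ring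
    · have h5 : 1 / ε ≤ L / l ^ 2 / 2 := by
        rw [div_le_iff₀ hε]
        calc (1 : ℝ) ≤ l := by linarith
          _ ≤ L / l ^ 2 / 2 * ε := by linarith
      linarith
    · have h5 : L = 2 * l ^ 2 * (L / l ^ 2 / 2) := by
        field_simp
      calc L = 2 * l ^ 2 * (L / l ^ 2 / 2) := h5
        _ ≤ _ := mul_le_mul_of_nonneg_left hlz2 (by positivity)
    · have h5 : Real.log (MM δ N) ≤ (1 / 2 - δ) * L := by
        have := Real.log_le_log hMpos hMf
        rwa [Real.log_exp] at this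
      have h6 : (1 / 2 - δ) * L - ε ≤ Real.log (MM δ N) := by
        rw [Real.le_log_iff_exp_le hMpos]
        refine le_trans ?_ hMg.le
        rw [sub_eq_add_neg ((1 / 2 - δ) * L) ε, Real.exp_add]
        have h7 : 1 ≤ Real.exp ((1 / 2 - δ) * L) * (1 - Real.exp (-ε)) := by
          have h8 : (1 - Real.exp (-ε)) = Real.exp (-K) := by
            rw [hK, neg_neg, Real.exp_log (by linarith)]
          rw [h8, ← Real.exp_add, Real.one_le_exp_iff]
          have h9 := mul_le_mul_of_nonneg_right c1 hL0.le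
          linarith
        linarith
      rw [abs_le]
      constructor <;> linarith
    · have h5 := mul_le_mul_of_nonneg_left hlz2 hε.le
      linarith
  exact eventually_atTop.1 key

theorem be_small_gen {δ : ℝ} (h1 : δ < 1 / 4) {ε : ℝ} (hε : 0 < ε) : ∃ N₀ : ℕ,
    ∀ N : ℕ, N₀ ≤ N → (PK (MM δ N) 2).Nonempty ∧
      |be (zz N) (MM δ N) 2| ≤ ε * Real.log (MM δ N) ∧
      ∑ p ∈ PK (MM δ N) 2, 1 / (p : ℝ) ≤ 2 / Real.log (MM δ N) := by
  obtain ⟨C, hC, hg⟩ := bet_g0
  obtain ⟨M₀, hM₀⟩ := bet_primes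
  -- `2 (1 + log M) / M ≤ ε / 2` eventually
  have hlim : ∀ᶠ M : ℕ in atTop, 2 * (1 + Real.log (M : ℝ)) ≤ ε / 2 * M := by
    have h2 : Tendsto (fun x : ℝ => (1 + Real.log x) / x) atTop (𝓝 0) := by
      have h3 : Tendsto (fun x : ℝ => 1 / x) atTop (𝓝 0) := by
        simpa using tendsto_inv_atTop_zero (𝕜 := ℝ)
      have h4 : Tendsto (fun x : ℝ => Real.log x / x) atTop (𝓝 0) :=
        Real.isLittleO_log_id_atTop.tendsto_div_nhds_zero
      have := h3.add h4
      simp only [add_zero] at this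
      refine this.congr fun x => ?_
      ring
    have h3 := (h2.comp tendsto_natCast_atTop_atTop).eventually
      (ge_mem_nhds (by positivity : (0 : ℝ) < ε / 4))
    filter_upwards [h3, eventually_ge_atTop 1] with M h4 h5
    have hM0 : (0 : ℝ) < M := by exact_mod_cast h5
    simp only [Function.comp] at h4
    rw [div_le_iff₀ hM0] at h4
    linarith
  obtain ⟨M₁, hM₁⟩ := eventually_atTop.1 hlim
  set B : ℝ := max 1 (max (Real.log (max M₀ M₁ + 1 : ℕ)) (4 * C / ε)) with hB
  have hB1 : 1 ≤ B := le_max_left _ _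
  obtain ⟨N₀, hN₀⟩ := sizes_gen h1 (ε := 1 / B) (by positivity)
  refine ⟨N₀, fun N hN => ?_⟩
  obtain ⟨-, hz, hzM, -, hlz, -⟩ := hN₀ N hN
  rw [one_div_one_div] at hlz
  set z := zz N with hzd
  set M := MM δ N with hMd
  have hz2 : (2 : ℝ) ≤ z := by exact_mod_cast hz
  have hlz0 : 0 < Real.log z := Real.log_pos (by linarith)
  have hMz : (z : ℝ) ≤ M := by exact_mod_cast hzM.le
  have hM0 : (0 : ℝ) < M := by linarith
  have hLM : Real.log z ≤ Real.log M := Real.log_le_log (by linarith) hMz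
  have hMM : max M₀ M₁ ≤ M := by
    have h2 : Real.log ((max M₀ M₁ + 1 : ℕ) : ℝ) ≤ Real.log M :=
      ((le_max_left _ _).trans (le_max_right _ _)).trans (hlz.trans hLM)
    rw [Real.log_le_log_iff (by positivity) hM0] at h2
    have : max M₀ M₁ + 1 ≤ M := by exact_mod_cast h2
    omega
  obtain ⟨-, hlow, hup⟩ := hM₀ M ((le_max_left _ _).trans hMM)
  have hlarge := hM₁ M ((le_max_right _ _).trans hMM)
  have hL : 0 < Real.log M := hlz0.trans_le hLM
  have hcard : (0 : ℝ) < (PK M 2).card := lt_of_lt_of_le (by positivity) hlow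
  refine ⟨?_, ?_, ?_⟩
  · rw [← Finset.card_pos]
    exact_mod_cast hcard
  · unfold be
    rw [abs_div, abs_of_pos hcard, div_le_iff₀ hcard]
    have h2 := hg z M hz (by omega)
    have h3 : C * M / Real.log z ≤ ε / 4 * M := by
      rw [div_le_iff₀ hlz0]
      have h4 : 4 * C / ε ≤ Real.log z :=
        ((le_max_right _ _).trans (le_max_right _ _)).trans hlz
      rw [div_le_iff₀ hε] at h4
      nlinarith
    have h4 : ε * (M : ℝ) / 2 ≤ ε * Real.log M * (PK M 2).card := by
      calc ε * (M : ℝ) / 2 = ε * Real.log M * (M / (2 * Real.log M)) := by field_simp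
        _ ≤ _ := mul_le_mul_of_nonneg_left hlow (by positivity)
    linarith
  · calc ∑ p ∈ PK M 2, 1 / (p : ℝ) ≤ ∑ p ∈ PK M 2, 1 / (M : ℝ) := by
          refine Finset.sum_le_sum fun p hp => ?_
          unfold PK at hp
          simp only [Finset.mem_filter, Finset.mem_Ioc] at hp
          exact one_div_le_one_div_of_le hM0 (by exact_mod_cast hp.1.1.le)
      _ = (PK M 2).card / M := by rw [Finset.sum_const, nsmul_eq_mul]; ring
      _ ≤ (2 * M / Real.log M) / M := by gcongr
      _ = 2 / Real.log M := by field_simp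

end Pool.Agent.LSP
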